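import Mathlib

set_option autoImplicit false

/-! # Additive energy: Cauchy-Schwarz, and the energy of the parts of a set of solutions -/

namespace Pool.Agent.P8H31.AE

open Finset
open scoped Pointwise

variable {W : Type*} [AddCommGroup W] [DecidableEq W]

/-- the number of representations of `d` as a difference -/
def rep (s : Finset W) (d : W) : ℕ := #{p ∈ s ×ˢ s | p.1 - p.2 = d}

lemma energy_eq_sum (s t : Finset W) :
    s.addEnergy t = ∑ d ∈ s - s, rep s d * rep t (-d) := by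
  classical
  unfold Finset.addEnergy
  rw [Finset.card_eq_sum_card_fiberwise (f := fun x : (W × W) × W × W => x.1.1 - x.1.2)
    (t := s - s)]
  · refine Finset.sum_congr rfl fun d _ => ?_
    unfold rep
    rw [← Finset.card_product]
    congr 1
    ext ⟨⟨a, b⟩, c, e⟩
    simp only [mem_filter, mem_product]
    constructor
    · rintro ⟨⟨⟨⟨ha, hb⟩, hc, he⟩, h1⟩, h2⟩
      refine ⟨⟨⟨ha, hb⟩, h2⟩, ⟨hc, he⟩, ?_⟩
      rw [← h2, neg_sub, sub_eq_sub_iff_add_eq_add, add_comm b, add_comm c, h1]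
      · exact add_comm _ _
    · rintro ⟨⟨⟨ha, hb⟩, h2⟩, ⟨hc, he⟩, h3⟩
      refine ⟨⟨⟨⟨ha, hb⟩, hc, he⟩, ?_⟩, h2⟩
      rw [← h2, neg_sub, sub_eq_sub_iff_add_eq_add] at h3
      calc a + c = c + a := add_comm _ _
        _ = b + e := h3
  · rintro ⟨⟨a, b⟩, c, e⟩ hx
    simp only [coe_filter, mem_product, Set.mem_ofPred_eq] at hx
    exact mem_coe.2 (sub_mem_sub hx.1.1.1 hx.1.1.2)

lemma rep_neg (s : Finset W) (d : W) : rep s (-d) = rep s d := by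
  classical
  unfold rep
  refine Finset.card_bij (fun p _ => (p.2, p.1)) ?_ ?_ ?_
  · rintro ⟨a, b⟩ h
    simp only [mem_filter, mem_product] at h ⊢
    refine ⟨⟨h.1.2, h.1.1⟩, ?_⟩
    rw [← neg_sub, h.2, neg_neg]
  · rintro ⟨a, b⟩ _ ⟨c, d⟩ _ h
    simp only [Prod.mk.injEq] at h ⊢
    exact ⟨h.2, h.1⟩
  · rintro ⟨a, b⟩ h
    simp only [mem_filter, mem_product] at h
    refine ⟨(b, a), ?_, rfl⟩
    simp only [mem_filter, mem_product]
    refine ⟨⟨h.1.2, h.1.1⟩, ?_⟩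
    rw [← neg_sub, h.2]

lemma sum_rep_sq_le (s : Finset W) (T : Finset W) :
    ∑ d ∈ T, rep s d ^ 2 ≤ s.addEnergy s := by
  classical
  rw [energy_eq_sum]
  have h : ∀ d, rep s d * rep s (-d) = rep s d ^ 2 := fun d => by rw [rep_neg, sq]
  simp_rw [h]
  rw [← Finset.sum_filter_add_sum_filter_not T (fun d => d ∈ s - s)]
  have h2 : ∑ d ∈ T with d ∉ s - s, rep s d ^ 2 = 0 := by
    refine Finset.sum_eq_zero fun d hd => ?_
    rw [mem_filter] at hd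
    have : rep s d = 0 := by
      unfold rep
      rw [Finset.card_eq_zero, Finset.filter_eq_empty_iff]
      rintro ⟨a, b⟩ hab h
      rw [mem_product] at hab
      exact hd.2 (h ▸ sub_mem_sub hab.1 hab.2)
    rw [this, sq, mul_zero]
  rw [h2, add_zero]
  refine Finset.sum_le_sum_of_subset fun d hd => (mem_filter.1 hd).2

/-- Cauchy-Schwarz for the additive energy -/
lemma energy_sq_le (s t : Finset W) :
    (s.addEnergy t) ^ 2 ≤ s.addEnergy s * t.addEnergy t := by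
  rw [energy_eq_sum s t]
  refine (Finset.sum_mul_sq_le_sq_mul_sq (s - s) (fun d => rep s d) fun d => rep t (-d)).trans ?_
  refine Nat.mul_le_mul (sum_rep_sq_le s _) ?_
  have h : ∀ d, rep t (-d) ^ 2 = rep t d ^ 2 := fun d => by rw [rep_neg]
  simp_rw [h]
  exact sum_rep_sq_le t _

lemma energy_le_cube (s : Finset W) : s.addEnergy s ≤ #s ^ 3 := by
  classical
  unfold Finset.addEnergy
  have : #s ^ 3 = #((s ×ˢ s) ×ˢ s) := by
    rw [card_product, card_product]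
    ring
  rw [this]
  refine Finset.card_le_card_of_injOn (fun x => (x.1, x.2.1)) ?_ ?_
  · rintro ⟨⟨a, b⟩, c, e⟩ hx
    simp only [coe_filter, mem_product, Set.mem_ofPred_eq] at hx
    simp only [coe_product, Set.mem_prod, mem_coe]
    exact ⟨⟨hx.1.1.1, hx.1.1.2⟩, hx.1.2.1⟩
  · rintro ⟨⟨a, b⟩, c, e⟩ hx ⟨⟨a', b'⟩, c', e'⟩ hx' h
    simp only [Prod.mk.injEq] at h
    obtain ⟨⟨rfl, rfl⟩, rfl⟩ := h
    simp only [coe_filter, mem_product, Set.mem_ofPred_eq] at hx hx'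
    have : e = e' := by
      have h1 := hx.2
      have h2 := hx'.2
      rw [h1] at h2
      exact add_left_cancel h2
    rw [this]

/-- The energy of a set which has many solutions of `a + b = c` with sets of at most `N` elements. -/
lemma energy_of_solutions {N : ℕ} {K : ℝ} (hK : 0 < K) (hN : 0 < N) {s t u : Finset W}
    (hs : #s ≤ N) (ht : #t ≤ N) (hu : #u ≤ N)
    (h : (N : ℝ) ^ 2 ≤ K * (#{p ∈ s ×ˢ t | p.1 + p.2 ∈ u} : ℕ)) :
    (N : ℝ) ^ 3 ≤ K ^ 4 * (s.addEnergy s : ℕ) ∧ (N : ℝ) ^ 3 ≤ K ^ 4 * (t.addEnergy t : ℕ) := by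
  have hN0 : (0 : ℝ) < N := by exact_mod_cast hN
  set M : ℝ := ((#{p ∈ s ×ˢ t | p.1 + p.2 ∈ u} : ℕ) : ℝ) with hM
  have h1 : M ^ 2 ≤ N * (s.addEnergy t : ℕ) := by
    have h2 : (#{p ∈ s ×ˢ t | p.1 + p.2 ∈ u}) ^ 2 ≤ N * s.addEnergy t :=
      (Finset.card_sq_le_card_mul_addEnergy s t u).trans (Nat.mul_le_mul_right _ hu)
    rw [hM]
    exact_mod_cast h2
  have h3 : ((s.addEnergy t : ℕ) : ℝ) ^ 2 ≤ (s.addEnergy s : ℕ) * (t.addEnergy t : ℕ) := by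
    exact_mod_cast energy_sq_le s t
  have hM0 : 0 ≤ M := by positivity
  -- `N ^ 3 ≤ K ^ 2 E(s, t)`
  have h4 : (N : ℝ) ^ 3 ≤ K ^ 2 * (s.addEnergy t : ℕ) := by
    have h5 : ((N : ℝ) ^ 2) ^ 2 ≤ (K * M) ^ 2 := pow_le_pow_left₀ (by positivity) h 2
    have h6 : (N : ℝ) * (N : ℝ) ^ 3 ≤ N * (K ^ 2 * (s.addEnergy t : ℕ)) := by
      calc (N : ℝ) * (N : ℝ) ^ 3 = ((N : ℝ) ^ 2) ^ 2 := by ring
        _ ≤ (K * M) ^ 2 := h5
        _ = K ^ 2 * M ^ 2 := by ring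
        _ ≤ K ^ 2 * (N * (s.addEnergy t : ℕ)) := mul_le_mul_of_nonneg_left h1 (by positivity)
        _ = _ := by ring
    exact le_of_mul_le_mul_left h6 hN0
  have h7 : ((N : ℝ) ^ 3) ^ 2 ≤ K ^ 4 * ((s.addEnergy s : ℕ) * (t.addEnergy t : ℕ)) := by
    calc ((N : ℝ) ^ 3) ^ 2 ≤ (K ^ 2 * (s.addEnergy t : ℕ)) ^ 2 :=
          pow_le_pow_left₀ (by positivity) h4 2
      _ = K ^ 4 * ((s.addEnergy t : ℕ) : ℝ) ^ 2 := by ring
      _ ≤ _ := mul_le_mul_of_nonneg_left h3 (by positivity)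
  have hcube : ∀ v : Finset W, #v ≤ N → ((v.addEnergy v : ℕ) : ℝ) ≤ (N : ℝ) ^ 3 := by
    intro v hv
    have h8 : v.addEnergy v ≤ N ^ 3 := (energy_le_cube v).trans (Nat.pow_le_pow_left hv 3)
    exact_mod_cast h8
  have hN3 : (0 : ℝ) < (N : ℝ) ^ 3 := by positivity
  constructor
  · have h8 : (N : ℝ) ^ 3 * (N : ℝ) ^ 3 ≤ (N : ℝ) ^ 3 * (K ^ 4 * (s.addEnergy s : ℕ)) := by
      calc (N : ℝ) ^ 3 * (N : ℝ) ^ 3 = ((N : ℝ) ^ 3) ^ 2 := by ring
        _ ≤ K ^ 4 * ((s.addEnergy s : ℕ) * (t.addEnergy t : ℕ)) := h7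
        _ ≤ K ^ 4 * ((s.addEnergy s : ℕ) * (N : ℝ) ^ 3) := by
            have := hcube t ht
            gcongr
        _ = _ := by ring
    exact le_of_mul_le_mul_left h8 hN3
  · have h8 : (N : ℝ) ^ 3 * (N : ℝ) ^ 3 ≤ (N : ℝ) ^ 3 * (K ^ 4 * (t.addEnergy t : ℕ)) := by
      calc (N : ℝ) ^ 3 * (N : ℝ) ^ 3 = ((N : ℝ) ^ 3) ^ 2 := by ring
        _ ≤ K ^ 4 * ((s.addEnergy s : ℕ) * (t.addEnergy t : ℕ)) := h7
        _ ≤ K ^ 4 * ((N : ℝ) ^ 3 * (t.addEnergy t : ℕ)) := by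
            have := hcube s hs
            gcongr
        _ = _ := by ring
    exact le_of_mul_le_mul_left h8 hN3

end Pool.Agent.P8H31.AE
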