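import Pool.Agent.P8H31.AE.Reduce
import Pool.Agent.Results.MP_db4732_co.ComparisonTrees

set_option autoImplicit false
set_option maxHeartbeats 1000000

/-! # Corner-free sets decided by additive equations, labels, comparisons and small rank -/

namespace Pool.Agent.P8H31.AE

open Finset Pool.Agent.Results.MP_db4732_co.ComparisonTrees

/-- `E x y` says that `a x + b y = c (x + y)` in an abelian group. -/
def IsAdditive {n : ℕ} (E : V n → V n → Prop) : Prop :=
  ∃ (H : Type) (_ : AddCommGroup H) (a b c : V n → H), ∀ x y, E x y ↔ a x + b y = c (x + y)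

lemma vtwo {n : ℕ} (x : V n) : x + x = 0 := by
  funext i
  have : ∀ t : ZMod 2, t + t = 0 := by decide
  exact this (x i)

lemma card_V (n : ℕ) : Fintype.card (V n) = 2 ^ n := by
  simp [V, ZMod.card]

/-- restricting the coordinates to sets keeps the matching condition -/
lemma matching_restrict {n : ℕ} {E : V n → V n → Prop} (hE : IsMatching E) (X Y Z : Finset (V n)) :
    IsMatching fun x y => E x y ∧ x ∈ X ∧ y ∈ Y ∧ x + y ∈ Z := by
  classical
  obtain ⟨a, a', b, b', c, c', h⟩ := hE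
  refine ⟨fun x => if x ∈ X then 2 * a x + 2 else 0, fun y => if y ∈ Y then 2 * a' y + 2 else 1,
    fun x => b x + 1, fun z => if z ∈ Z then b' z + 1 else 0, c, c', fun x y => ?_⟩
  simp only [h]
  by_cases hx : x ∈ X
  · by_cases hy : y ∈ Y
    · by_cases hz : x + y ∈ Z
      · simp only [hx, hy, hz, if_true, and_true]
        constructor
        · rintro ⟨h1, h2, h3⟩
          exact ⟨by rw [h1], by rw [h2], h3⟩
        · rintro ⟨h1, h2, h3⟩
          exact ⟨by omega, by omega, h3⟩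
      · simp only [hx, hy, hz, if_true, if_false, and_false, false_iff]
        rintro ⟨_, h2, _⟩
        omega
    · simp only [hx, hy, if_true, if_false, false_and, and_false, false_iff]
      rintro ⟨h1, _⟩
      omega
  · simp only [hx, if_false, false_and, and_false, false_iff]
    rintro ⟨h1, _⟩
    split_ifs at h1

/-- iterating the loss -/
lemma loss : ∃ D : ℕ, 1 ≤ D ∧ ∀ K : ℝ, 1 ≤ K → Phi (Phi (Phi K)) ^ 2 ≤ (2 * K) ^ D := by
  obtain ⟨D, hD, h⟩ := Phi_le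
  refine ⟨D * D * D * 2, by nlinarith [Nat.mul_le_mul (Nat.mul_le_mul hD hD) hD], fun K hK => ?_⟩
  have h1 := one_le_Phi hK
  have h2 := one_le_Phi h1
  have h3 := one_le_Phi h2
  have a1 := h K hK
  have a2 := h _ h1
  have a3 := h _ h2
  have b2 : 2 * Phi (Phi K) ≤ (2 * K) ^ (D * D) := by
    rw [pow_mul]
    exact a2.trans (pow_le_pow_left₀ (by linarith) a1 D)
  have b3 : 2 * Phi (Phi (Phi K)) ≤ (2 * K) ^ (D * D * D) := by
    rw [pow_mul (2 * K) (D * D) D]
    exact a3.trans (pow_le_pow_left₀ (by linarith) b2 D)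
  rw [pow_mul]
  exact pow_le_pow_left₀ (by linarith) (by linarith) 2

/-- the final estimate -/
lemma final_arith {D : ℕ} (hD : 1 ≤ D) {α F M q : ℝ} (hα : 0 < α) (hαF : α ≤ F) (hM : 1 ≤ M)
    (hq : 0 ≤ q)
    (h : F ≤ (2 * (F / α)) ^ D * (M * (F * q))) : α ≤ 2 * M * F * q ^ ((1 : ℝ) / D) := by
  have hF : 0 < F := hα.trans_le hαF
  have hD0 : (D : ℝ) ≠ 0 := by
    have : (0 : ℝ) < D := by exact_mod_cast hD
    exact this.ne'
  -- `α ^ D ≤ (2 F) ^ D M q`
  have h1 : α ^ D ≤ (2 * F) ^ D * (M * q) := by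
    have e : (2 * (F / α)) ^ D = (2 * F) ^ D / α ^ D := by
      rw [← div_pow]
      congr 1
      ring
    rw [e] at h
    have h2 : F * α ^ D ≤ F * ((2 * F) ^ D * (M * q)) := by
      have h3 : F * α ^ D ≤ ((2 * F) ^ D / α ^ D * (M * (F * q))) * α ^ D :=
        mul_le_mul_of_nonneg_right h (by positivity)
      have h4 : ((2 * F) ^ D / α ^ D * (M * (F * q))) * α ^ D = F * ((2 * F) ^ D * (M * q)) := by
        field_simp
      rwa [h4] at h3
    exact le_of_mul_le_mul_left h2 hF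
  have h5 : M * q ≤ (M * q ^ ((1 : ℝ) / D)) ^ D := by
    rw [mul_pow, ← Real.rpow_natCast (q ^ ((1 : ℝ) / D)) D, ← Real.rpow_mul hq, one_div,
      inv_mul_cancel₀ hD0, Real.rpow_one]
    apply mul_le_mul_of_nonneg_right _ hq
    exact le_self_pow₀ hM (by omega)
  have hr : 0 ≤ q ^ ((1 : ℝ) / D) := Real.rpow_nonneg hq _
  have h6 : α ^ D ≤ (2 * M * F * q ^ ((1 : ℝ) / D)) ^ D := by
    calc α ^ D ≤ (2 * F) ^ D * (M * q) := h1
      _ ≤ (2 * F) ^ D * (M * q ^ ((1 : ℝ) / D)) ^ D := mul_le_mul_of_nonneg_left h5 (by positivity)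
      _ = _ := by rw [← mul_pow]; congr 1; ring
  exact le_of_pow_le_pow_left₀ (by omega) (by positivity) h6

/-- The bound for one piece. -/
theorem one_piece {D : ℕ} (hD : 1 ≤ D)
    (hloss : ∀ K : ℝ, 1 ≤ K → Phi (Phi (Phi K)) ^ 2 ≤ (2 * K) ^ D)
    (n k S r : ℕ) (K : Type) [Field K] [CharP K 2] (A : Finset (V n × V n))
    (hA : CornerFree A) (f : V n → V n → K) (hf : Decomposes S r f)
    (E : V n → V n → Prop) (hE : IsMatching E) (T : Tree n) (hT : T.Comparisons)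
    (hk : T.depth ≤ k) (Q : V n → V n → Prop) (hQ : IsAdditive Q) (B : Finset (V n × V n))
    (hBA : B ⊆ A)
    (hB : ∀ x y, (x, y) ∈ B ↔ f x y ≠ 0 ∧ E x y ∧ T.Accepts x y ∧ Q x y) :
    (#B : ℝ) ≤ 2 * ((2 * n + 2) ^ k * (S * (2 * r + 1) : ℝ) ^ ((1 : ℝ) / 4)) *
      (4 : ℝ) ^ ((1 - 0.01 / D : ℝ) * n) := by
  classical
  rcases B.eq_empty_or_nonempty with h0 | hne
  · rw [h0, card_empty, Nat.cast_zero]
    positivity
  have hBpos : (0 : ℝ) < #B := by exact_mod_cast hne.card_pos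
  obtain ⟨H, hH, a, b, c, habc⟩ := hQ
  have hcard : (#B : ℝ) ≤ (4 : ℝ) ^ n := by
    have h1 : #B ≤ Fintype.card (V n × V n) := Finset.card_le_univ B
    rw [Fintype.card_prod, card_V, ← mul_pow] at h1
    exact_mod_cast h1
  have hN : (Fintype.card (V n) : ℝ) ^ 2 = (4 : ℝ) ^ n := by
    rw [card_V]
    push_cast
    rw [← pow_mul, mul_comm n 2, pow_mul]
    norm_num
  set K0 : ℝ := (4 : ℝ) ^ n / #B with hK0
  have hK1 : 1 ≤ K0 := by
    rw [hK0, le_div_iff₀ hBpos, one_mul]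
    exact hcard
  obtain ⟨X, Y, Z, hXYZ, hbig⟩ := reduce (G := V n) (H := H) vtwo a b c B (by
    rintro ⟨x, y⟩ hp
    exact (habc x y).1 ((hB x y).1 hp).2.2.2) hK1 (by
    rw [hN, hK0, div_mul_cancel₀ _ hBpos.ne'])
  set B' : Finset (V n × V n) := {p ∈ B | p.1 ∈ X ∧ p.2 ∈ Y ∧ p.1 + p.2 ∈ Z} with hB'
  have hB'A : CornerFree B' := by
    intro x y z hz hh
    refine hA x y z hz ⟨?_, ?_, ?_⟩
    · exact hBA (mem_filter.1 hh.1).1
    · exact hBA (mem_filter.1 hh.2.1).1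
    · exact hBA (mem_filter.1 hh.2.2).1
  have hmain := (Pool.Agent.Results.MP_db4732_co.ComparisonTrees.result n 1 k S r K B' hB'A
    (fun _ => f) (fun _ => hf) (fun _ x y => E x y ∧ x ∈ X ∧ y ∈ Y ∧ x + y ∈ Z)
    (fun _ => matching_restrict hE X Y Z) (fun _ => T) (fun _ => hT) (fun _ => hk) (by
      intro x y
      rw [hB', mem_filter, hB]
      constructor
      · rintro ⟨⟨h1, h2, h3, _⟩, h5, h6, h7⟩
        exact ⟨0, h1, ⟨h2, h5, h6, h7⟩, h3⟩
      · rintro ⟨_, h1, ⟨h2, h5, h6, h7⟩, h3⟩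
        exact ⟨⟨h1, h2, h3, (habc x y).2 (hXYZ x h5 y h6 h7)⟩, h5, h6, h7⟩)).1
  rw [Nat.cast_one, one_mul] at hmain
  set M : ℝ := (2 * n + 2) ^ k * (S * (2 * r + 1) : ℝ) ^ ((1 : ℝ) / 4) with hM
  -- `S ≥ 1`
  have hS : 1 ≤ S := by
    by_contra hcon
    have hS0 : S = 0 := by omega
    subst hS0
    obtain ⟨p, hp⟩ := hne
    have h1 := ((hB p.1 p.2).1 hp).1
    obtain ⟨u, v, w, h⟩ := hf
    rw [h] at h1
    exact h1 (Finset.sum_eq_zero fun i _ => i.elim0)
  have hM1 : 1 ≤ M := by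
    have h1 : (1 : ℝ) ≤ (2 * (n : ℝ) + 2) ^ k := by
      apply one_le_pow₀
      have : (0 : ℝ) ≤ n := Nat.cast_nonneg n
      linarith
    have h2 : (1 : ℝ) ≤ (S * (2 * r + 1) : ℝ) ^ ((1 : ℝ) / 4) := by
      apply Real.one_le_rpow _ (by norm_num)
      have h3 : (1 : ℝ) ≤ S := by exact_mod_cast hS
      have h4 : (0 : ℝ) ≤ r := Nat.cast_nonneg r
      nlinarith
    exact one_le_mul_of_one_le_of_one_le h1 h2
  have h4n : (4 : ℝ) ^ ((1 - 0.01 : ℝ) * n) = (4 : ℝ) ^ n * (4 : ℝ) ^ (-(0.01 : ℝ) * n) := by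
    rw [← Real.rpow_natCast, ← Real.rpow_add (by norm_num)]
    congr 1
    ring
  have hfin := final_arith (D := D) hD (α := #B) (F := (4 : ℝ) ^ n) (M := M)
    (q := (4 : ℝ) ^ (-(0.01 : ℝ) * n)) hBpos hcard hM1 (by positivity) (by
      rw [← hK0]
      calc (4 : ℝ) ^ n ≤ Phi (Phi (Phi K0)) ^ 2 * #B' := by rw [← hN]; exact hbig
        _ ≤ (2 * K0) ^ D * (M * (4 : ℝ) ^ ((1 - 0.01 : ℝ) * n)) :=
            mul_le_mul (hloss K0 hK1) hmain (Nat.cast_nonneg _) (by positivity)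
        _ = _ := by rw [h4n])
  refine hfin.trans (le_of_eq ?_)
  rw [mul_assoc (2 * M)]
  congr 1
  rw [← Real.rpow_mul (by norm_num), ← Real.rpow_natCast, ← Real.rpow_add (by norm_num)]
  congr 1
  ring

/-- Solutions when the group has no elements of order two. -/
theorem no_two_torsion {D : ℕ} (hD : 1 ≤ D) (hphi : ∀ K : ℝ, 1 ≤ K → Phi K ≤ (2 * K) ^ D)
    {n : ℕ} {H : Type*} [AddCommGroup H] [DecidableEq H] (h2 : ∀ h : H, h + h = 0 → h = 0)
    (a b c : V n → H) (m : ℕ) (hm : ∀ h, #{x | a x = h} ≤ m) :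
    (#{p : V n × V n | a p.1 + b p.2 = c (p.1 + p.2)} : ℝ) ≤
      2 * 4 ^ n * ((m : ℝ) / 2 ^ n) ^ ((1 : ℝ) / D) := by
  classical
  set A : Finset (V n × V n) := {p : V n × V n | a p.1 + b p.2 = c (p.1 + p.2)} with hA
  rcases A.eq_empty_or_nonempty with h0 | hne
  · rw [h0, card_empty, Nat.cast_zero]
    positivity
  have hBpos : (0 : ℝ) < #A := by exact_mod_cast hne.card_pos
  have hcard : (#A : ℝ) ≤ (4 : ℝ) ^ n := by
    have h1 : #A ≤ Fintype.card (V n × V n) := Finset.card_le_univ A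
    rw [Fintype.card_prod, card_V, ← mul_pow] at h1
    exact_mod_cast h1
  have hN : (Fintype.card (V n) : ℝ) ^ 2 = (4 : ℝ) ^ n := by
    rw [card_V]
    push_cast
    rw [← pow_mul, mul_comm n 2, pow_mul]
    norm_num
  set K0 : ℝ := (4 : ℝ) ^ n / #A with hK0
  have hK1 : 1 ≤ K0 := by
    rw [hK0, le_div_iff₀ hBpos, one_mul]
    exact hcard
  obtain ⟨M, d, hMd⟩ := piece (G := V n) (H := H) (K := K0) vtwo a b c A (by
    rintro ⟨x, y⟩ hp
    rw [hA, mem_filter] at hp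
    exact hp.2) (by linarith) (by rw [hN, hK0, div_mul_cancel₀ _ hBpos.ne'])
  have hM0 : ∀ x, M x = 0 := fun x => h2 _ (by rw [← map_add, vtwo, map_zero])
  have hcount : #{p ∈ A | a p.1 = M p.1 + d} ≤ m * 2 ^ n := by
    have h3 : #{p ∈ A | a p.1 = M p.1 + d} ≤ #(({x | a x = d} : Finset (V n)) ×ˢ (univ : Finset (V n))) := by
      refine Finset.card_le_card fun p hp => ?_
      rw [mem_filter] at hp
      have h4 := hp.2
      rw [hM0, zero_add] at h4
      simp only [mem_product, mem_filter, mem_univ, true_and, and_true]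
      exact h4
    rw [card_product, Finset.card_univ, card_V] at h3
    exact h3.trans (Nat.mul_le_mul_right _ (hm d))
  have h4n : (4 : ℝ) ^ n * ((m : ℝ) / 2 ^ n) = m * 2 ^ n := by
    have : (4 : ℝ) ^ n = 2 ^ n * 2 ^ n := by
      rw [← mul_pow]
      norm_num
    rw [this]
    field_simp
  have hfin := final_arith (D := D) hD (α := #A) (F := (4 : ℝ) ^ n) (M := 1)
    (q := (m : ℝ) / 2 ^ n) hBpos hcard le_rfl (by positivity) (by
      rw [← hK0, one_mul, h4n]
      calc (4 : ℝ) ^ n ≤ Phi K0 * #{p ∈ A | a p.1 = M p.1 + d} := by rw [← hN]; exact hMd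
        _ ≤ (2 * K0) ^ D * (m * 2 ^ n) := by
            apply mul_le_mul (hphi K0 hK1) _ (Nat.cast_nonneg _) (by positivity)
            exact_mod_cast hcount)
  rwa [mul_one] at hfin

end Pool.Agent.P8H31.AE
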