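import Pool.Agent.R884.CG.Pfr
import Pool.Agent.P8H31.AE.Energy

set_option autoImplicit false
set_option maxHeartbeats 4000000
set_option linter.style.haveILetI false

/-! # Functions from an elementary abelian 2-group to an abelian group whose graph has large additive
energy -/

namespace Pool.Agent.P8H31.AE

open Finset
open scoped Pointwise

lemma exists_section {G H : Type*} [AddCommGroup G] [AddCommGroup H] [Module (ZMod 2) G]
    [Module (ZMod 2) H] (U : Submodule (ZMod 2) (G × H)) :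
    ∃ L : G →ₗ[ZMod 2] H, ∀ x h, (x, h) ∈ U → ((0 : G), h - L x) ∈ U := by
  set p : U →ₗ[ZMod 2] G := (LinearMap.fst (ZMod 2) G H).comp U.subtype with hp
  obtain ⟨s, hs⟩ := (p.rangeRestrict).exists_rightInverse_of_surjective
    (LinearMap.range_rangeRestrict p)
  obtain ⟨g, hg⟩ := LinearMap.exists_extend ((LinearMap.snd (ZMod 2) G H).comp (U.subtype.comp s))
  refine ⟨g, fun x h hxh => ?_⟩
  have hx : x ∈ LinearMap.range p := ⟨⟨(x, h), hxh⟩, rfl⟩
  have h1 : ((s ⟨x, hx⟩ : U) : G × H).1 = x := by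
    have := LinearMap.congr_fun hs ⟨x, hx⟩
    have := congrArg Subtype.val this
    simpa [hp] using this
  have h2 : ((s ⟨x, hx⟩ : U) : G × H).2 = g x := by
    have := LinearMap.congr_fun hg ⟨x, hx⟩
    simpa using this.symm
  have h3 := U.sub_mem hxh (s ⟨x, hx⟩).2
  have h4 : (x, h) - ((s ⟨x, hx⟩ : U) : G × H) = (0, h - g x) := by
    ext
    · simp [h1]
    · simp [h2]
  rwa [h4] at h3

lemma arith {L x t u q : ℝ} (hL : 0 < L) (hx : 0 < x) (ht : 0 < t) (hq : 0 ≤ q)
    (h1 : x ≤ L ^ 22 * t) (h2 : t ≤ u * q) (h3 : t * u ≤ L ^ 22 * x) : x ≤ L ^ 66 * q := by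
  have h6 : t ^ 2 ≤ L ^ 22 * x * q := by
    calc t ^ 2 = t * t := by ring
      _ ≤ t * (u * q) := mul_le_mul_of_nonneg_left h2 ht.le
      _ = (t * u) * q := by ring
      _ ≤ _ := mul_le_mul_of_nonneg_right h3 hq
  have h7 : x * x ≤ x * (L ^ 66 * q) := by
    calc x * x ≤ (L ^ 22 * t) * (L ^ 22 * t) :=
          mul_le_mul h1 h1 hx.le (by positivity)
      _ = L ^ 44 * t ^ 2 := by ring
      _ ≤ L ^ 44 * (L ^ 22 * x * q) := mul_le_mul_of_nonneg_left h6 (by positivity)
      _ = _ := by ring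
  exact le_of_mul_le_mul_left h7 hx

lemma arith2 {K a x b b' x' y q q' : ℝ} (hK : 0 < K) (ha : 0 < a) (h1 : x ≤ 8 * K * b)
    (h2 : b ≤ a ^ 3 * b') (h3 : x' = b') (h4 : x' ≤ (a ^ 4) ^ 66 * q) (h5 : q ≤ q')
    (h6 : y = 8 * K * a ^ 267 * q') : x ≤ y := by
  rw [h6]
  calc x ≤ 8 * K * b := h1
    _ ≤ 8 * K * (a ^ 3 * b') := mul_le_mul_of_nonneg_left h2 (by positivity)
    _ = 8 * K * (a ^ 3 * x') := by rw [h3]
    _ ≤ 8 * K * (a ^ 3 * ((a ^ 4) ^ 66 * q')) :=
        mul_le_mul_of_nonneg_left (mul_le_mul_of_nonneg_left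
          (h4.trans (mul_le_mul_of_nonneg_left h5 (by positivity))) (by positivity))
          (by positivity)
    _ = _ := by ring

/-- pigeonhole -/
lemma exists_fiber {α β : Type*} [DecidableEq β] (s : Finset α) (t : Finset β) (f : α → β)
    (hs : s.Nonempty) (h : ∀ a ∈ s, f a ∈ t) : ∃ b ∈ t, #s ≤ #t * #{a ∈ s | f a = b} := by
  by_contra hcon
  push Not at hcon
  have h1 : #s = ∑ b ∈ t, #{a ∈ s | f a = b} := Finset.card_eq_sum_card_fiberwise h
  obtain ⟨a, ha⟩ := hs
  have ht : t.Nonempty := ⟨f a, h a ha⟩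
  have h2 : ∑ b ∈ t, #t * #{a ∈ s | f a = b} < ∑ b ∈ t, #s :=
    Finset.sum_lt_sum_of_nonempty ht hcon
  rw [← Finset.mul_sum, ← h1, Finset.sum_const, smul_eq_mul] at h2
  exact lt_irrefl _ h2

section

variable {G H : Type*} [AddCommGroup G] [Fintype G] [DecidableEq G] [AddCommGroup H]
  [DecidableEq H]

/-- The case of values of order two. -/
theorem two_torsion_case (h2 : ∀ x : G, x + x = 0) (X : Finset G) (hX : X.Nonempty) (ψ : G → H)
    (hψ : ∀ x ∈ X, ψ x + ψ x = 0) {L : ℝ}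
    (hL : ((#((X.image fun x => (x, ψ x)) - (X.image fun x => (x, ψ x))) : ℕ) : ℝ) ≤ L * #X) :
    ∃ (M : G →+ H) (c : H), (#X : ℝ) ≤ L ^ 66 * #{x ∈ X | ψ x = M x + c} := by
  classical
  set S : Set H := ((X.image ψ : Finset H) : Set H) with hS
  set H0 : AddSubgroup H := AddSubgroup.closure S with hH0
  have htor : ∀ h ∈ H0, h + h = 0 := by
    intro h hh
    refine AddSubgroup.closure_induction (p := fun h _ => h + h = 0) ?_ ?_ ?_ ?_ hh
    · intro x hx
      rw [hS, mem_coe, mem_image] at hx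
      obtain ⟨a, ha, rfl⟩ := hx
      exact hψ a ha
    · exact add_zero 0
    · intro x y _ _ hx hy
      calc x + y + (x + y) = (x + x) + (y + y) := by abel
        _ = 0 := by rw [hx, hy, add_zero]
    · intro x _ hx
      calc -x + -x = -(x + x) := by abel
        _ = 0 := by rw [hx, neg_zero]
  have htor' : ∀ h : H0, h + h = 0 := fun h => Subtype.ext (htor h h.2)
  haveI : AddGroup.FG H0 := (AddGroup.fg_iff_addSubgroup_fg H0).2 ⟨X.image ψ, rfl⟩
  haveI : Finite H0 := by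
    refine AddCommGroup.finite_of_fg_isAddTorsion H0 fun h => ?_
    rw [isOfFinAddOrder_iff_nsmul_eq_zero]
    exact ⟨2, by norm_num, by rw [two_nsmul]; exact htor' h⟩
  haveI : Fintype H0 := Fintype.ofFinite H0
  have hmem : ∀ x ∈ X, ψ x ∈ H0 := fun x hx => AddSubgroup.subset_closure (by
    rw [hS, mem_coe]
    exact mem_image_of_mem ψ hx)
  -- the function with values in `H0`
  let ψ0 : G → H0 := fun x => if hx : x ∈ X then ⟨ψ x, hmem x hx⟩ else 0
  have hψ0 : ∀ x ∈ X, ((ψ0 x : H0) : H) = ψ x := fun x hx => by simp only [ψ0, dif_pos hx]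
  set B : Finset (G × H0) := X.image fun x => (x, ψ0 x) with hB
  have hcB : #B = #X := Finset.card_image_of_injective _ fun a b h => (Prod.mk.inj h).1
  have hBne : B.Nonempty := hX.image _
  have hV2 : ∀ v : G × H0, v + v = 0 := fun v => Prod.ext (h2 v.1) (htor' v.2)
  have hneg : ∀ v : G × H0, -v = v := fun v => neg_eq_of_add_eq_zero_left (hV2 v)
  have hBB : B + B = B - B := by
    ext v
    simp only [Finset.mem_sub, Finset.mem_add]
    constructor
    · rintro ⟨y, hy, z, hz, rfl⟩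
      exact ⟨y, hy, z, hz, by rw [sub_eq_add_neg, hneg]⟩
    · rintro ⟨y, hy, z, hz, rfl⟩
      exact ⟨y, hy, z, hz, by rw [sub_eq_add_neg, hneg]⟩
  have hdoub : ((B + B).card : ℝ) ≤ L * B.card := by
    rw [hBB, hcB]
    refine le_trans ?_ hL
    have : #(B - B) ≤ #((X.image fun x => (x, ψ x)) - (X.image fun x => (x, ψ x))) := by
      refine Finset.card_le_card_of_injOn (fun v : G × H0 => (v.1, (v.2 : H))) ?_ ?_
      · intro v hv
        rw [mem_coe] at hv ⊢
        obtain ⟨a, ha, b, hb, rfl⟩ := Finset.mem_sub.1 hv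
        rw [hB, mem_image] at ha hb
        obtain ⟨x, hx, rfl⟩ := ha
        obtain ⟨y, hy, rfl⟩ := hb
        refine Finset.mem_sub.2 ⟨(x, ψ x), mem_image_of_mem _ hx, (y, ψ y), mem_image_of_mem _ hy, ?_⟩
        simp only [Prod.mk_sub_mk, AddSubgroup.coe_sub, hψ0 x hx, hψ0 y hy]
      · intro v _ w _ h
        simp only [Prod.mk.injEq] at h
        exact Prod.ext h.1 (Subtype.ext h.2)
    exact_mod_cast this
  obtain ⟨U, g, hU1, hU2, -⟩ := Pool.Agent.R884.CG.pfr_set hV2 hBne hdoub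
  -- the subspace and its section
  letI : Module (ZMod 2) G := AddCommGroup.zmodModule (n := 2) fun x => by rw [two_nsmul]; exact h2 x
  letI : Module (ZMod 2) H0 := AddCommGroup.zmodModule (n := 2) fun x => by
    rw [two_nsmul]; exact htor' x
  obtain ⟨M, hM⟩ := exists_section (AddSubgroup.toZModSubmodule 2 U)
  have hM' : ∀ x h, (x, h) ∈ U → ((0 : G), h - M x) ∈ U := hM
  set T : Finset (G × H0) := B.filter fun b => b - g ∈ U with hT
  have hXpos : (0 : ℝ) < #X := by exact_mod_cast hX.card_pos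
  have hL0 : 0 < L := by
    have h1 : (0 : ℝ) < ((#((X.image fun x => (x, ψ x)) - (X.image fun x => (x, ψ x))) : ℕ) : ℝ) := by
      have hne : (X.image fun x => (x, ψ x)).Nonempty := hX.image _
      exact_mod_cast (hne.sub hne).card_pos
    by_contra hcon
    push Not at hcon
    have := mul_nonpos_of_nonpos_of_nonneg hcon hXpos.le
    linarith
  have hTne : T.Nonempty := by
    rw [Finset.nonempty_iff_ne_empty]
    intro h0
    rw [h0, card_empty, Nat.cast_zero, mul_zero, hcB] at hU1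
    linarith
  -- the fibre `U0` of `U` over zero
  set U0 : Finset H0 := univ.filter fun u => ((0 : G), u) ∈ U with hU0
  have hTU : #T * #U0 ≤ Nat.card U := by
    rw [← Finset.card_product, ← Fintype.card_eq_nat_card, ← Finset.card_univ]
    refine Finset.card_le_card_of_injOn
      (fun p : (G × H0) × H0 => if h : ((p.1.1 - g.1, M (p.1.1 - g.1) + p.2) : G × H0) ∈ U then
        (⟨(p.1.1 - g.1, M (p.1.1 - g.1) + p.2), h⟩ : U) else 0) (fun _ _ => mem_coe.2 (mem_univ _)) ?_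
    have key : ∀ p ∈ (T ×ˢ U0 : Finset ((G × H0) × H0)),
        ((p.1.1 - g.1, M (p.1.1 - g.1) + p.2) : G × H0) ∈ U := by
      rintro ⟨b, u⟩ hp
      rw [mem_product, hT, mem_filter, hU0, mem_filter] at hp
      have h1 : b - g ∈ U := hp.1.2
      have h3 : ((0 : G), u) ∈ U := hp.2.2
      have h4 := hM' (b - g).1 (b - g).2 h1
      have h5 := U.add_mem (U.sub_mem h1 h4) h3
      have e : b - g - (0, (b - g).2 - M (b - g).1) + (0, u) =
          ((b.1 - g.1, M (b.1 - g.1) + u) : G × H0) := by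
        ext
        · simp
        · simp
      rwa [e] at h5
    rintro ⟨b, u⟩ hp ⟨b', u'⟩ hp' h
    rw [mem_coe] at hp hp'
    simp only at h
    rw [dif_pos (key _ hp), dif_pos (key _ hp')] at h
    have h1 := congrArg Subtype.val h
    simp only [Prod.mk.injEq] at h1
    have h3 : b.1 = b'.1 := sub_left_injective h1.1
    have h4 : u = u' := by
      have := h1.2
      rw [h3] at this
      exact add_left_cancel this
    rw [mem_product, hT, mem_filter, hB, mem_image] at hp hp'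
    obtain ⟨⟨⟨x, _, rfl⟩, _⟩, _⟩ := hp
    obtain ⟨⟨⟨x', _, rfl⟩, _⟩, _⟩ := hp'
    simp only at h3
    rw [h3, h4]
  -- pigeonhole
  obtain ⟨u, hu, hfib⟩ := exists_fiber T U0 (fun b => b.2 - g.2 - M (b.1 - g.1)) hTne (by
    intro b hb
    rw [hT, mem_filter] at hb
    rw [hU0, mem_filter]
    exact ⟨mem_univ _, hM' (b - g).1 (b - g).2 hb.2⟩)
  have hfin : #{b ∈ T | b.2 - g.2 - M (b.1 - g.1) = u} ≤
      #{x ∈ X | ψ x = (M x : H) + ((g.2 - M g.1 + u : H0) : H)} := by
    refine Finset.card_le_card_of_injOn (fun b => b.1) ?_ ?_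
    · intro b hb
      rw [mem_coe, mem_filter, hT, mem_filter, hB, mem_image] at hb
      obtain ⟨⟨⟨x, hx, rfl⟩, -⟩, h3⟩ := hb
      rw [mem_coe, mem_filter]
      refine ⟨hx, ?_⟩
      simp only at h3 ⊢
      rw [← hψ0 x hx, ← AddSubgroup.coe_add]
      congr 1
      rw [← h3, map_sub]
      abel
    · intro b hb b' hb' h
      rw [mem_coe, mem_filter, hT, mem_filter, hB, mem_image] at hb hb'
      obtain ⟨⟨⟨x, _, rfl⟩, -⟩, -⟩ := hb
      obtain ⟨⟨⟨x', _, rfl⟩, -⟩, -⟩ := hb'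
      simp only at h
      rw [h]
  refine ⟨H0.subtype.comp M.toAddMonoidHom, ((g.2 - M g.1 + u : H0) : H), ?_⟩
  have hTpos : (0 : ℝ) < #T := by exact_mod_cast hTne.card_pos
  have hcount : (#T : ℝ) ≤ #U0 * #{x ∈ X | ψ x = (M x : H) + ((g.2 - M g.1 + u : H0) : H)} := by
    have h5 := hfib.trans (Nat.mul_le_mul_left _ hfin)
    have h6 : ((#T : ℕ) : ℝ) ≤
        ((#U0 * #{x ∈ X | ψ x = (M x : H) + ((g.2 - M g.1 + u : H0) : H)} : ℕ) : ℝ) :=
      Nat.cast_le.2 h5
    rwa [Nat.cast_mul] at h6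
  have hTU' : (#T : ℝ) * #U0 ≤ L ^ 22 * #X := by
    have h5 : ((#T * #U0 : ℕ) : ℝ) ≤ ((Nat.card U : ℕ) : ℝ) := Nat.cast_le.2 hTU
    rw [hcB] at hU2
    rw [Nat.cast_mul] at h5
    exact h5.trans hU2
  rw [hcB] at hU1
  have hU1' : (#X : ℝ) ≤ L ^ 22 * #T := hU1
  exact arith hL0 hXpos hTpos (Nat.cast_nonneg _) hU1' hcount hTU'

/-- **Structure of functions with additive energy.** -/
theorem structure_hom (h2 : ∀ x : G, x + x = 0) (X : Finset G) (hX : X.Nonempty) (φ : G → H) {K : ℝ}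
    (hK : 0 < K) (hE : (#X : ℝ) ^ 3 ≤ K * ((X.image fun x => (x, φ x)).addEnergy
      (X.image fun x => (x, φ x)) : ℕ)) :
    ∃ (M : G →+ H) (c : H),
      (#X : ℝ) ≤ 8 * K * (2 ^ 22 * K ^ 10) ^ 267 * #{x ∈ X | φ x = M x + c} := by
  classical
  set Γ : Finset (G × H) := X.image fun x => (x, φ x) with hΓ
  have hcΓ : #Γ = #X := Finset.card_image_of_injective _ fun a b h => (Prod.mk.inj h).1
  have hΓne : Γ.Nonempty := hX.image _
  obtain ⟨B, hBΓ, hBne, hB1, hB2⟩ := Pool.Agent.H217R3.AK.bsg Γ hΓne K hK (by rw [hcΓ]; exact hE)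
  set K1 : ℝ := 2 ^ 22 * K ^ 10 with hK1
  have hK10 : 0 < K1 := by positivity
  have hBpos : (0 : ℝ) < #B := by exact_mod_cast hBne.card_pos
  have hBgraph : ∀ b ∈ B, b.1 ∈ X ∧ b.2 = φ b.1 := by
    intro b hb
    have := hBΓ hb
    rw [hΓ, mem_image] at this
    obtain ⟨x, hx, rfl⟩ := this
    exact ⟨hx, rfl⟩
  -- Plünnecke
  have h3B : ((#(3 • B) : ℕ) : ℝ) ≤ K1 ^ 3 * #B := by
    have h1 := Finset.pluennecke_ruzsa_inequality_nsmul_sub (hA := hBne) B 3
    have h3 : ((#(3 • B) : ℚ≥0) : ℝ) ≤ ((((#(B - B) : ℚ≥0) / #B) ^ 3 * #B : ℚ≥0) : ℝ) := by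
      exact_mod_cast h1
    push_cast at h3
    refine h3.trans ?_
    apply mul_le_mul_of_nonneg_right _ hBpos.le
    apply pow_le_pow_left₀ (by positivity)
    rw [div_le_iff₀ hBpos]
    exact hB2
  -- doubling the values
  set W : Finset H := B.image fun b => b.2 + b.2 with hW
  have hBW : #B * #W ≤ #(3 • B) := by
    rw [← Finset.card_product]
    refine Finset.card_le_card_of_injOn (fun p : (G × H) × H => (p.1.1, p.1.2 + p.2)) ?_ ?_
    · rintro ⟨b, w⟩ hp
      rw [mem_coe, mem_product, hW, mem_image] at hp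
      obtain ⟨hb, b', hb', hw⟩ := hp
      rw [mem_coe, show (3 : ℕ) = 2 + 1 from rfl, add_nsmul, two_nsmul, one_nsmul]
      have e : ((b.1, b.2 + w) : G × H) = (b' + b') + b := by
        ext
        · simp [h2]
        · simp only [Prod.snd_add]
          simp only at hw
          rw [← hw]
          exact add_comm _ _
      simp only
      rw [e]
      exact add_mem_add (add_mem_add hb' hb') hb
    · rintro ⟨b, w⟩ hp ⟨b', w'⟩ hp' h
      rw [mem_coe, mem_product] at hp hp'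
      simp only [Prod.mk.injEq] at h
      have h3 : b = b' := by
        refine Prod.ext h.1 ?_
        rw [(hBgraph b hp.1).2, (hBgraph b' hp'.1).2, h.1]
      subst h3
      rw [add_left_cancel h.2]
  have hWle : (#W : ℝ) ≤ K1 ^ 3 := by
    have h1 : (#B : ℝ) * #W ≤ #B * K1 ^ 3 := by
      calc (#B : ℝ) * #W ≤ ((#(3 • B) : ℕ) : ℝ) := by exact_mod_cast hBW
        _ ≤ K1 ^ 3 * #B := h3B
        _ = _ := mul_comm _ _
    exact le_of_mul_le_mul_left h1 hBpos
  obtain ⟨w, hw, hfib⟩ := exists_fiber B W (fun b => b.2 + b.2) hBne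
    fun b hb => mem_image_of_mem _ hb
  set B' : Finset (G × H) := {b ∈ B | b.2 + b.2 = w} with hB'
  have hB'1 : (#B : ℝ) ≤ K1 ^ 3 * #B' := by
    have h1 : (#B : ℝ) ≤ #W * #B' := by exact_mod_cast hfib
    exact h1.trans (mul_le_mul_of_nonneg_right hWle (by positivity))
  have hB'ne : B'.Nonempty := by
    rw [Finset.nonempty_iff_ne_empty]
    intro h0
    rw [h0, card_empty, Nat.cast_zero, mul_zero] at hB'1
    linarith
  obtain ⟨b0, hb0⟩ := hB'ne
  -- the function with values of order two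
  set X' : Finset G := B'.image Prod.fst with hX'
  have hcX' : #X' = #B' := by
    refine Finset.card_image_of_injOn ?_
    intro b hb b' hb' h
    rw [mem_coe, hB', mem_filter] at hb hb'
    refine Prod.ext h ?_
    rw [(hBgraph b hb.1).2, (hBgraph b' hb'.1).2, h]
  have hX'ne : X'.Nonempty := ⟨b0.1, mem_image_of_mem _ hb0⟩
  have hX'mem : ∀ x ∈ X', (x, φ x) ∈ B' ∧ x ∈ X ∧ φ x + φ x = w := by
    intro x hx
    rw [hX', mem_image] at hx
    obtain ⟨b, hb, rfl⟩ := hx
    have h1 := hb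
    rw [hB', mem_filter] at h1
    have h3 := hBgraph b h1.1
    have e : (b.1, φ b.1) = b := Prod.ext rfl h3.2.symm
    refine ⟨by rw [e]; exact hb, h3.1, ?_⟩
    rw [← h3.2]
    exact h1.2
  have hb0w : b0.2 + b0.2 = w := by
    rw [hB', mem_filter] at hb0
    exact hb0.2
  have hdiff : ((#((X'.image fun x => (x, φ x - b0.2)) - (X'.image fun x => (x, φ x - b0.2))) : ℕ) : ℝ)
      ≤ K1 ^ 4 * #X' := by
    have hsub : (X'.image fun x => (x, φ x - b0.2)) - (X'.image fun x => (x, φ x - b0.2)) ⊆ B - B := by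
      intro v hv
      obtain ⟨a, ha, b, hb, rfl⟩ := Finset.mem_sub.1 hv
      rw [mem_image] at ha hb
      obtain ⟨x, hx, rfl⟩ := ha
      obtain ⟨y, hy, rfl⟩ := hb
      have h3 := (hX'mem x hx).1
      have h4 := (hX'mem y hy).1
      rw [hB', mem_filter] at h3 h4
      refine Finset.mem_sub.2 ⟨_, h3.1, _, h4.1, ?_⟩
      simp only [Prod.mk_sub_mk, sub_sub_sub_cancel_right]
    calc ((#((X'.image fun x => (x, φ x - b0.2)) - (X'.image fun x => (x, φ x - b0.2))) : ℕ) : ℝ)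
        ≤ ((#(B - B) : ℕ) : ℝ) := by exact_mod_cast Finset.card_le_card hsub
      _ ≤ K1 * #B := hB2
      _ ≤ K1 * (K1 ^ 3 * #B') := mul_le_mul_of_nonneg_left hB'1 hK10.le
      _ = K1 ^ 4 * #X' := by rw [hcX']; ring
  obtain ⟨M, c, hMc⟩ := two_torsion_case h2 X' hX'ne (fun x => φ x - b0.2) (by
    intro x hx
    have h3 := (hX'mem x hx).2.2
    calc φ x - b0.2 + (φ x - b0.2) = (φ x + φ x) - (b0.2 + b0.2) := by abel
      _ = 0 := by rw [h3, hb0w, sub_self]) hdiff
  refine ⟨M, c + b0.2, ?_⟩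
  have hcount : #{x ∈ X' | φ x - b0.2 = M x + c} ≤ #{x ∈ X | φ x = M x + (c + b0.2)} := by
    refine Finset.card_le_card fun x hx => ?_
    rw [mem_filter] at hx ⊢
    refine ⟨(hX'mem x hx.1).2.1, ?_⟩
    rw [← add_assoc, ← hx.2, sub_add_cancel]
  have hcount' : ((#{x ∈ X' | φ x - b0.2 = M x + c} : ℕ) : ℝ) ≤
      ((#{x ∈ X | φ x = M x + (c + b0.2)} : ℕ) : ℝ) := by exact_mod_cast hcount
  rw [hcΓ] at hB1
  refine arith2 hK hK10 hB1 hB'1 (congrArg Nat.cast hcX') hMc hcount' rfl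

end

end Pool.Agent.P8H31.AE
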