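import Pool.Agent.N68.Corner.Limit

set_option autoImplicit false
set_option linter.unusedSectionVars false
set_option maxHeartbeats 1000000

/-! # The corner-free sets of the integer lifts are decided by an additive equation -/

namespace Pool.Agent.P8H31.AE

open Finset Pool.Agent.N68.Corner

/-- `A` is the set of solutions of `a x + b y = c (x + y)` in an abelian group. -/
def IsAdd {G : Type*} [AddCommGroup G] (A : Finset (G × G)) : Prop :=
  ∃ (H : Type) (_ : AddCommGroup H) (a b c : G → H), ∀ x y, (x, y) ∈ A ↔ a x + b y = c (x + y)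

lemma IsAdd.image {G G' : Type*} [AddCommGroup G] [AddCommGroup G'] [DecidableEq G']
    (φ : G →+ G') (hφ : Function.Injective φ) {A : Finset (G × G)} (hA : IsAdd A) :
    IsAdd (A.image (Prod.map φ φ)) := by
  classical
  obtain ⟨H, hH, a, b, c, h⟩ := hA
  refine ⟨H × ℤ, inferInstance,
    fun x => if hx : ∃ y, φ y = x then (a hx.choose, 0) else (0, 1),
    fun x => if hx : ∃ y, φ y = x then (b hx.choose, 0) else (0, 1),
    fun x => if hx : ∃ y, φ y = x then (c hx.choose, 0) else (0, -1), fun x y => ?_⟩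
  have key : ∀ z : G, ∀ hz : ∃ y, φ y = φ z, hz.choose = z := fun z hz => hφ hz.choose_spec
  constructor
  · intro hp
    obtain ⟨⟨u, v⟩, huv, he⟩ := mem_image.1 hp
    simp only [Prod.map_apply, Prod.mk.injEq] at he
    obtain ⟨rfl, rfl⟩ := he
    have h1 : ∃ y, φ y = φ u := ⟨u, rfl⟩
    have h2 : ∃ y, φ y = φ v := ⟨v, rfl⟩
    have h3 : ∃ y, φ y = φ u + φ v := ⟨u + v, map_add φ u v⟩
    beta_reduce
    rw [dif_pos h1, dif_pos h2, dif_pos h3, key u h1, key v h2]
    have h4 : h3.choose = u + v := hφ (h3.choose_spec.trans (map_add φ u v).symm)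
    rw [h4, Prod.mk_add_mk, (h u v).1 huv, add_zero]
  · intro he
    beta_reduce at he
    by_cases h1 : ∃ u, φ u = x
    · by_cases h2 : ∃ v, φ v = y
      · obtain ⟨u, rfl⟩ := h1
        obtain ⟨v, rfl⟩ := h2
        have h1 : ∃ y, φ y = φ u := ⟨u, rfl⟩
        have h2 : ∃ y, φ y = φ v := ⟨v, rfl⟩
        have h3 : ∃ y, φ y = φ u + φ v := ⟨u + v, map_add φ u v⟩
        rw [dif_pos h1, dif_pos h2, dif_pos h3, key u h1, key v h2] at he
        have h4 : h3.choose = u + v := hφ (h3.choose_spec.trans (map_add φ u v).symm)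
        rw [h4, Prod.mk_add_mk, Prod.mk.injEq] at he
        exact mem_image.2 ⟨(u, v), (h u v).2 he.1, rfl⟩
      · exfalso
        rw [dif_pos h1, dif_neg h2] at he
        split_ifs at he with h3
        · simp at he
        · simp at he
    · exfalso
      rw [dif_neg h1] at he
      split_ifs at he with h2 h3 h3 <;> simp at he

variable {ι : Type} [Fintype ι] [DecidableEq ι]

/-- the set of the pairs of residue classes given by three families of lifts -/
lemma of_lifts (m : ℕ) [NeZero m] (R : ℤ) (S1 S2 S3 : (ι → ℤ) → Prop)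
    (h1 : ∀ u, S1 u → nrm u = R) (h2 : ∀ u, S2 u → nrm u = R) (h3 : ∀ u, S3 u → nrm u = R)
    (i1 : ∀ u v, S1 u → S1 v → red m u = red m v → u = v)
    (i2 : ∀ u v, S2 u → S2 v → red m u = red m v → u = v)
    (i3 : ∀ u v, S3 u → S3 v → red m u = red m v → u = v) :
    ∃ A : Finset ((ι → ZMod m) × (ι → ZMod m)), CornerFree A ∧ IsAdd A ∧
      ∀ u v, S1 u → S2 v → S3 (u + v) → (red m u, red m v) ∈ A := by
  classical
  let a : (ι → ZMod m) → (ι → ℤ) × ℤ := fun x =>
    if h : ∃ u, S1 u ∧ red m u = x then (h.choose, 0) else (0, 1)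
  let b : (ι → ZMod m) → (ι → ℤ) × ℤ := fun x =>
    if h : ∃ u, S2 u ∧ red m u = x then (h.choose, 0) else (0, 1)
  let c : (ι → ZMod m) → (ι → ℤ) × ℤ := fun x =>
    if h : ∃ u, S3 u ∧ red m u = x then (h.choose, 0) else (0, -1)
  have ha : ∀ u, S1 u → a (red m u) = (u, 0) := by
    intro u hu
    have h : ∃ v, S1 v ∧ red m v = red m u := ⟨u, hu, rfl⟩
    simp only [a]
    rw [dif_pos h, i1 _ _ h.choose_spec.1 hu h.choose_spec.2]
  have hb : ∀ u, S2 u → b (red m u) = (u, 0) := by
    intro u hu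
    have h : ∃ v, S2 v ∧ red m v = red m u := ⟨u, hu, rfl⟩
    simp only [b]
    rw [dif_pos h, i2 _ _ h.choose_spec.1 hu h.choose_spec.2]
  have hc : ∀ u, S3 u → c (red m u) = (u, 0) := by
    intro u hu
    have h : ∃ v, S3 v ∧ red m v = red m u := ⟨u, hu, rfl⟩
    simp only [c]
    rw [dif_pos h, i3 _ _ h.choose_spec.1 hu h.choose_spec.2]
  have sol : ∀ x y, a x + b y = c (x + y) →
      ∃ u v, S1 u ∧ S2 v ∧ S3 (u + v) ∧ red m u = x ∧ red m v = y := by
    intro x y he
    by_cases k1 : ∃ u, S1 u ∧ red m u = x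
    · by_cases k2 : ∃ u, S2 u ∧ red m u = y
      · obtain ⟨u, hu, rfl⟩ := k1
        obtain ⟨v, hv, rfl⟩ := k2
        rw [ha u hu, hb v hv] at he
        by_cases k3 : ∃ w, S3 w ∧ red m w = red m u + red m v
        · obtain ⟨w, hw, hw'⟩ := k3
          rw [← hw', hc w hw, Prod.mk_add_mk, Prod.mk.injEq] at he
          exact ⟨u, v, hu, hv, he.1 ▸ hw, rfl, rfl⟩
        · exfalso
          simp only [c] at he
          rw [dif_neg k3] at he
          simp at he
      · exfalso
        simp only [a, b, c] at he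
        rw [dif_pos k1, dif_neg k2] at he
        split_ifs at he with k3 <;> simp at he
    · exfalso
      simp only [a, b, c] at he
      rw [dif_neg k1] at he
      split_ifs at he with k2 k3 k3 <;> simp at he
  refine ⟨univ.filter fun p => a p.1 + b p.2 = c (p.1 + p.2), ?_,
    ⟨(ι → ℤ) × ℤ, inferInstance, a, b, c, fun x y => by simp⟩, ?_⟩
  · intro x y z p1 p2 p3
    obtain ⟨u, v, hu, hv, huv, rfl, rfl⟩ := sol x y (mem_filter.1 p1).2
    obtain ⟨u', v', hu', hv', huv', e1, e2⟩ := sol _ _ (mem_filter.1 p2).2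
    obtain ⟨u'', v'', hu'', hv'', huv'', e3, e4⟩ := sol _ _ (mem_filter.1 p3).2
    simp only at e1 e2 e3 e4
    have q1 : u' = u := i1 _ _ hu' hu e1
    have q2 : v'' = v := i2 _ _ hv'' hv e4
    subst q1 q2
    have q3 : u'' + v'' = u' + v' := by
      apply i3 _ _ huv'' huv'
      rw [red_add, red_add, e3, e2]
      abel
    set d := v' - v'' with hd
    have w1 : v' = v'' + d := by rw [hd]; abel
    have w2 : u'' = u' + d := by
      rw [w1] at q3
      have : u'' = u' + (v'' + d) - v'' := by rw [← q3]; abel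
      rw [this]; abel
    have hd0 : d = 0 := by
      apply rigid u' v'' d R (h1 _ hu) (h2 _ hv) (h3 _ huv)
      · rw [← w1]; exact h2 _ hv'
      · rw [← w2]; exact h1 _ hu''
      · have := h3 _ huv'
        rw [w1] at this
        rw [← this]
        congr 1
        abel
    rw [w1, hd0, add_zero] at e2
    exact left_eq_add.1 e2
  · intro u v hu hv huv
    rw [mem_filter]
    refine ⟨mem_univ _, ?_⟩
    simp only
    rw [ha u hu, hb v hv, ← red_add, hc _ huv, Prod.mk_add_mk, add_zero]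

/-- **Hashing** (the proof is that of `Pool.Agent.N68.Corner.hash`, with labels). `B` is a set of integer vectors with bounded entries and equal lengths, which has
at most `μ` elements in every residue class modulo `m`, and `T` a set of pairs `(u, v)` with `u`,
`v`, `u + v ∈ B`. Then there is a corner-free set with at least `|T| / (2 Q²)` elements. -/
theorem hash' (m : ℕ) [NeZero m] (L μ Q : ℕ) [hQ : Fact Q.Prime] (hQL : 2 * L < Q) (hQμ : 6 * μ ≤ Q)
    (R : ℤ) (B : Finset (ι → ℤ)) (hB : ∀ u ∈ B, (∀ i, |u i| ≤ L) ∧ nrm u = R)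
    (hμ : ∀ x : ι → ZMod m, (B.filter (fun u => red m u = x)).card ≤ μ)
    (T : Finset ((ι → ℤ) × (ι → ℤ))) (hT : ∀ t ∈ T, t.1 ∈ B ∧ t.2 ∈ B ∧ t.1 + t.2 ∈ B) :
    ∃ A : Finset ((ι → ZMod m) × (ι → ZMod m)), CornerFree A ∧ IsAdd A ∧
      T.card ≤ 2 * Q ^ 2 * A.card := by
  classical
  -- aliases
  let al : (ι → ZMod Q) → (ι → ℤ) → Prop := fun a u =>
    ∃ u' ∈ B, u' ≠ u ∧ red m u' = red m u ∧ dot a u' = dot a u
  -- every vector has few aliases on average
  have hal : ∀ u ∈ B, Q * (univ.filter (fun a : ι → ZMod Q => al a u)).card ≤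
      μ * Q ^ Fintype.card ι := by
    intro u hu
    set C := B.filter (fun u' => red m u' = red m u) with hC
    have h1 : (univ.filter (fun a : ι → ZMod Q => al a u)) ⊆
        (C.erase u).biUnion (fun u' => univ.filter (fun a : ι → ZMod Q => dot a (u' - u) = 0)) := by
      intro a ha
      obtain ⟨u', hu', hne, hr, hd⟩ := (mem_filter.1 ha).2
      rw [mem_biUnion]
      refine ⟨u', mem_erase.2 ⟨hne, mem_filter.2 ⟨hu', hr⟩⟩, ?_⟩
      rw [mem_filter]
      refine ⟨mem_univ _, ?_⟩
      rw [dot_sub, hd, sub_self]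
    have h2 : ∀ u' ∈ C.erase u,
        Q * (univ.filter (fun a : ι → ZMod Q => dot a (u' - u) = 0)).card ≤
          Q ^ Fintype.card ι := by
      intro u' hu'
      rw [mem_erase] at hu'
      have hu'B : u' ∈ B := (mem_filter.1 hu'.2).1
      obtain ⟨i0, hi0⟩ : ∃ i, u' i ≠ u i := by
        by_contra hcon
        push Not at hcon
        exact hu'.1 (funext hcon)
      apply card_ker (u' - u) i0
      intro hz
      rw [ZMod.intCast_zmod_eq_zero_iff_dvd] at hz
      have b1 := (hB u' hu'B).1 i0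
      have b2 := (hB u hu).1 i0
      rw [Pi.sub_apply] at hz
      have h3 : |u' i0 - u i0| < Q := by
        have := abs_sub (u' i0) (u i0)
        have hQ' : ((2 * L : ℕ) : ℤ) < Q := by exact_mod_cast hQL
        push_cast at hQ'
        linarith
      have h4 := Int.eq_zero_of_abs_lt_dvd hz h3
      exact hi0 (by linarith)
    calc Q * (univ.filter (fun a : ι → ZMod Q => al a u)).card
        ≤ Q * ∑ u' ∈ C.erase u,
            (univ.filter (fun a : ι → ZMod Q => dot a (u' - u) = 0)).card :=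
          Nat.mul_le_mul_left _ ((card_le_card h1).trans card_biUnion_le)
      _ = ∑ u' ∈ C.erase u,
            Q * (univ.filter (fun a : ι → ZMod Q => dot a (u' - u) = 0)).card := by
          rw [mul_sum]
      _ ≤ ∑ u' ∈ C.erase u, Q ^ Fintype.card ι := sum_le_sum h2
      _ = (C.erase u).card * Q ^ Fintype.card ι := by rw [sum_const, smul_eq_mul]
      _ ≤ μ * Q ^ Fintype.card ι := by
          apply Nat.mul_le_mul_right
          exact (card_le_card (erase_subset _ _)).trans (hμ _)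
  -- some `a` is good for half of the pairs
  let bad : (ι → ZMod Q) → (ι → ℤ) × (ι → ℤ) → Prop := fun a t =>
    al a t.1 ∨ al a t.2 ∨ al a (t.1 + t.2)
  have hbad : ∀ t ∈ T, Q * (univ.filter (fun a : ι → ZMod Q => bad a t)).card ≤
      3 * μ * Q ^ Fintype.card ι := by
    intro t ht
    obtain ⟨t1, t2, t3⟩ := hT t ht
    have h1 : (univ.filter (fun a : ι → ZMod Q => bad a t)) ⊆
        (univ.filter (fun a : ι → ZMod Q => al a t.1)) ∪
          ((univ.filter (fun a : ι → ZMod Q => al a t.2)) ∪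
            (univ.filter (fun a : ι → ZMod Q => al a (t.1 + t.2)))) := by
      intro a ha
      simp only [mem_union, mem_filter, mem_univ, true_and] at ha ⊢
      exact ha
    have h2 := (card_le_card h1).trans ((card_union_le _ _).trans
      (Nat.add_le_add_left (card_union_le _ _) _))
    have e1 := hal _ t1
    have e2 := hal _ t2
    have e3 := hal _ t3
    calc _ ≤ Q * _ := Nat.mul_le_mul_left _ h2
      _ ≤ _ := by
        rw [mul_add, mul_add]
        linarith
  have hex : ∃ a : ι → ZMod Q, T.card ≤ 2 * (T.filter (fun t => ¬ bad a t)).card := by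
    by_contra hcon
    push Not at hcon
    have h1 : ∀ a : ι → ZMod Q, T.card < 2 * (T.filter (fun t => bad a t)).card := by
      intro a
      have := hcon a
      have h2 := card_filter_add_card_filter_not (s := T) (fun t => bad a t)
      omega
    have h2 : ∑ a : ι → ZMod Q, T.card < ∑ a : ι → ZMod Q, 2 * (T.filter (fun t => bad a t)).card :=
      sum_lt_sum_of_nonempty univ_nonempty fun a _ => h1 a
    rw [sum_const, card_univ, Fintype.card_fun, ZMod.card, smul_eq_mul, ← mul_sum] at h2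
    have h3 : ∑ a : ι → ZMod Q, (T.filter (fun t => bad a t)).card =
        ∑ t ∈ T, (univ.filter (fun a : ι → ZMod Q => bad a t)).card := by
      simp only [card_filter]
      rw [sum_comm]
    rw [h3] at h2
    have h4 : Q * ∑ t ∈ T, (univ.filter (fun a : ι → ZMod Q => bad a t)).card ≤
        T.card * (3 * μ * Q ^ Fintype.card ι) := by
      rw [mul_sum]
      calc _ ≤ ∑ t ∈ T, 3 * μ * Q ^ Fintype.card ι := sum_le_sum hbad
        _ = _ := by rw [sum_const, smul_eq_mul]
    have hQ0 : 0 < Q := hQ.out.pos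
    have h5 : Q * (Q ^ Fintype.card ι * T.card) <
        Q * (2 * ∑ t ∈ T, (univ.filter (fun a : ι → ZMod Q => bad a t)).card) :=
      Nat.mul_lt_mul_of_pos_left h2 hQ0
    have h6 : Q * (2 * ∑ t ∈ T, (univ.filter (fun a : ι → ZMod Q => bad a t)).card) ≤
        2 * (T.card * (3 * μ * Q ^ Fintype.card ι)) := by
      calc _ = 2 * (Q * ∑ t ∈ T, (univ.filter (fun a : ι → ZMod Q => bad a t)).card) := by ring
        _ ≤ _ := Nat.mul_le_mul_left _ h4
    have h7 : 2 * (T.card * (3 * μ * Q ^ Fintype.card ι)) =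
        6 * μ * (Q ^ Fintype.card ι * T.card) := by ring
    rw [h7] at h6
    have h8 : 6 * μ * (Q ^ Fintype.card ι * T.card) ≤ Q * (Q ^ Fintype.card ι * T.card) :=
      Nat.mul_le_mul_right _ hQμ
    omega
  obtain ⟨a, ha⟩ := hex
  set G := T.filter (fun t => ¬ bad a t) with hG
  -- pigeonhole over the two hash values
  obtain ⟨s, _, hs⟩ : ∃ s ∈ (univ : Finset (ZMod Q × ZMod Q)),
      G.card ≤ Q ^ 2 * (G.filter (fun t => (dot a t.1, dot a t.2) = s)).card := by
    by_contra hcon
    push Not at hcon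
    have h1 : G.card = ∑ s : ZMod Q × ZMod Q,
        (G.filter (fun t => (dot a t.1, dot a t.2) = s)).card :=
      card_eq_sum_card_fiberwise fun _ _ => mem_coe.2 (mem_univ _)
    have h2 : ∑ s : ZMod Q × ZMod Q,
        Q ^ 2 * (G.filter (fun t => (dot a t.1, dot a t.2) = s)).card <
        ∑ s : ZMod Q × ZMod Q, G.card :=
      sum_lt_sum_of_nonempty univ_nonempty hcon
    rw [← mul_sum, ← h1, sum_const, card_univ, Fintype.card_prod, ZMod.card, smul_eq_mul] at h2
    rw [pow_two] at h2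
    exact lt_irrefl _ h2
  set H := G.filter (fun t => (dot a t.1, dot a t.2) = s) with hH
  have hmem : ∀ t ∈ H, t ∈ T ∧ ¬ bad a t ∧ dot a t.1 = s.1 ∧ dot a t.2 = s.2 := by
    intro t ht
    rw [hH, mem_filter, hG, mem_filter] at ht
    refine ⟨ht.1.1, ht.1.2, ?_, ?_⟩
    · exact congrArg Prod.fst ht.2
    · exact congrArg Prod.snd ht.2
  -- vectors without aliases
  have uniq : ∀ u ∈ B, ∀ u' ∈ B, ¬ al a u → red m u' = red m u → dot a u' = dot a u → u' = u := by
    intro u _ u' hu' hn hr hd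
    by_contra hne
    exact hn ⟨u', hu', hne, hr, hd⟩
  let f : (ι → ℤ) × (ι → ℤ) → (ι → ZMod m) × (ι → ZMod m) := fun t => (red m t.1, red m t.2)
  have hf : Set.InjOn f H := by
    intro t ht t' ht' h
    rw [mem_coe] at ht ht'
    obtain ⟨k1, k2, k3, k4⟩ := hmem t ht
    obtain ⟨l1, l2, l3, l4⟩ := hmem t' ht'
    simp only [f, Prod.mk.injEq] at h
    have e1 := uniq t'.1 (hT t' l1).1 t.1 (hT t k1).1 (fun hh => l2 (Or.inl hh)) h.1
      (by rw [k3, l3])
    have e2 := uniq t'.2 (hT t' l1).2.1 t.2 (hT t k1).2.1 (fun hh => l2 (Or.inr (Or.inl hh))) h.2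
      (by rw [k4, l4])
    exact Prod.ext e1 e2
  obtain ⟨A, hA, hadd, hAm⟩ := of_lifts m R (fun u => u ∈ B ∧ ¬ al a u ∧ dot a u = s.1)
    (fun u => u ∈ B ∧ ¬ al a u ∧ dot a u = s.2) (fun u => u ∈ B ∧ ¬ al a u ∧ dot a u = s.1 + s.2)
    (fun u hu => (hB u hu.1).2) (fun u hu => (hB u hu.1).2) (fun u hu => (hB u hu.1).2)
    (fun u v hu hv h => uniq v hv.1 u hu.1 hv.2.1 h (by rw [hu.2.2, hv.2.2]))
    (fun u v hu hv h => uniq v hv.1 u hu.1 hv.2.1 h (by rw [hu.2.2, hv.2.2]))
    (fun u v hu hv h => uniq v hv.1 u hu.1 hv.2.1 h (by rw [hu.2.2, hv.2.2]))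
  refine ⟨A, hA, hadd, ?_⟩
  have hHA : H.image f ⊆ A := by
    intro p hp
    obtain ⟨t, ht, rfl⟩ := mem_image.1 hp
    obtain ⟨k1, k2, k3, k4⟩ := hmem t ht
    obtain ⟨t1, t2, t3⟩ := hT t k1
    exact hAm t.1 t.2 ⟨t1, fun hh => k2 (Or.inl hh), k3⟩ ⟨t2, fun hh => k2 (Or.inr (Or.inl hh)), k4⟩
      ⟨t3, fun hh => k2 (Or.inr (Or.inr hh)), by rw [dot_add, k3, k4]⟩
  have hcard := Finset.card_le_card hHA
  rw [card_image_of_injOn hf] at hcard
  calc T.card ≤ 2 * G.card := ha
    _ ≤ 2 * (Q ^ 2 * H.card) := Nat.mul_le_mul_left _ hs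
    _ ≤ 2 * (Q ^ 2 * A.card) := Nat.mul_le_mul_left _ (Nat.mul_le_mul_left _ hcard)
    _ = 2 * Q ^ 2 * A.card := by ring

end Pool.Agent.P8H31.AE
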