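import Pool.Agent.P8H31.AE.Hom

set_option autoImplicit false
set_option maxHeartbeats 1000000

/-! # Sets of solutions of an additive equation contain large sets decided by memberships -/

namespace Pool.Agent.P8H31.AE

open Finset
open scoped Pointwise

/-- the loss in one step -/
noncomputable def Phi (K : ℝ) : ℝ :=
  (2 * K) ^ 2 * (8 * (2 * K) ^ 4 * (2 ^ 22 * ((2 * K) ^ 4) ^ 10) ^ 267)

lemma one_le_Phi {K : ℝ} (hK : 1 ≤ K) : 1 ≤ Phi K := by
  have h1 : (1 : ℝ) ≤ 2 * K := by linarith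
  have h2 : (1 : ℝ) ≤ (2 * K) ^ 2 := one_le_pow₀ h1
  have h4 : (1 : ℝ) ≤ (2 * K) ^ 4 := one_le_pow₀ h1
  have h5 : (1 : ℝ) ≤ (2 ^ 22 * ((2 * K) ^ 4) ^ 10) ^ 267 := by
    apply one_le_pow₀
    have : (1 : ℝ) ≤ ((2 * K) ^ 4) ^ 10 := one_le_pow₀ h4
    linarith
  have h6 : (1 : ℝ) ≤ 8 * (2 * K) ^ 4 := by linarith
  exact one_le_mul_of_one_le_of_one_le h2 (one_le_mul_of_one_le_of_one_le h6 h5)

lemma Phi_le : ∃ D : ℕ, 1 ≤ D ∧ ∀ K : ℝ, 1 ≤ K → 2 * Phi K ≤ (2 * K) ^ D := by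
  refine ⟨1 + (2 + (3 + 4 + (22 + 4 * 10) * 267)), by norm_num, fun K hK => ?_⟩
  have h1 : (2 : ℝ) ≤ 2 * K := by linarith
  have h0 : (0 : ℝ) ≤ 2 * K := by linarith
  have h8 : (8 : ℝ) ≤ (2 * K) ^ 3 := by
    calc (8 : ℝ) = 2 ^ 3 := by norm_num
      _ ≤ _ := pow_le_pow_left₀ (by norm_num) h1 3
  have h22 : (2 : ℝ) ^ 22 ≤ (2 * K) ^ 22 := pow_le_pow_left₀ (by norm_num) h1 22
  rw [pow_add, pow_add, pow_add, pow_add, pow_one, pow_mul (2 * K) (22 + 4 * 10) 267,
    pow_add (2 * K) 22, pow_mul (2 * K) 4 10]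
  unfold Phi
  have h267 : (2 ^ 22 * ((2 * K) ^ 4) ^ 10) ^ 267 ≤ ((2 * K) ^ 22 * ((2 * K) ^ 4) ^ 10) ^ 267 := by
    apply pow_le_pow_left₀ (by positivity)
    exact mul_le_mul_of_nonneg_right h22 (by positivity)
  refine mul_le_mul h1 (mul_le_mul_of_nonneg_left (mul_le_mul ?_ h267 (by positivity)
    (by positivity)) (by positivity)) (by positivity) h0
  exact mul_le_mul_of_nonneg_right h8 (by positivity)

section

variable {G H : Type*} [AddCommGroup G] [Fintype G] [DecidableEq G] [AddCommGroup H]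
  [DecidableEq H]

/-- In a large set of solutions of an additive equation the first function is affine on many
points. -/
theorem piece (h2 : ∀ x : G, x + x = 0) (a b c : G → H) (A : Finset (G × G))
    (hA : ∀ p ∈ A, a p.1 + b p.2 = c (p.1 + p.2)) {K : ℝ} (hK : 0 < K)
    (h : (Fintype.card G : ℝ) ^ 2 ≤ K * #A) :
    ∃ (M : G →+ H) (d : H),
      (Fintype.card G : ℝ) ^ 2 ≤ Phi K * #{p ∈ A | a p.1 = M p.1 + d} := by
  classical
  set N : ℕ := Fintype.card G with hN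
  have hNpos : 0 < N := Fintype.card_pos
  have hN0 : (0 : ℝ) < N := by exact_mod_cast hNpos
  -- the popular points
  set P : Finset G := univ.filter fun x => (N : ℝ) ≤ 2 * K * #{p ∈ A | p.1 = x} with hP
  have hsum : #A = ∑ x : G, #{p ∈ A | p.1 = x} :=
    Finset.card_eq_sum_card_fiberwise (f := Prod.fst) (t := univ) fun _ _ => mem_coe.2 (mem_univ _)
  have hsumP : #{p ∈ A | p.1 ∈ P} = ∑ x ∈ P, #{p ∈ A | p.1 = x} := by
    rw [Finset.card_eq_sum_card_fiberwise (f := Prod.fst) (t := P) (fun p hp => by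
      rw [mem_coe, mem_filter] at hp
      exact mem_coe.2 hp.2)]
    refine Finset.sum_congr rfl fun x hx => ?_
    congr 1
    ext p
    simp only [mem_filter]
    constructor
    · rintro ⟨⟨h1, _⟩, h3⟩
      exact ⟨h1, h3⟩
    · rintro ⟨h1, h3⟩
      exact ⟨⟨h1, h3 ▸ hx⟩, h3⟩
  have hAP : (N : ℝ) ^ 2 ≤ 2 * K * #{p ∈ A | p.1 ∈ P} := by
    have h3 : ((#A : ℕ) : ℝ) = ∑ x : G, ((#{p ∈ A | p.1 = x} : ℕ) : ℝ) := by
      rw [hsum, Nat.cast_sum]
    have h4 : ((#{p ∈ A | p.1 ∈ P} : ℕ) : ℝ) = ∑ x ∈ P, ((#{p ∈ A | p.1 = x} : ℕ) : ℝ) := by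
      rw [hsumP, Nat.cast_sum]
    have h5 : ∑ x : G, ((#{p ∈ A | p.1 = x} : ℕ) : ℝ) = ∑ x ∈ P, ((#{p ∈ A | p.1 = x} : ℕ) : ℝ) +
        ∑ x ∈ Pᶜ, ((#{p ∈ A | p.1 = x} : ℕ) : ℝ) := (Finset.sum_add_sum_compl P _).symm
    have h6 : 2 * K * ∑ x ∈ Pᶜ, ((#{p ∈ A | p.1 = x} : ℕ) : ℝ) ≤ (N : ℝ) ^ 2 := by
      rw [Finset.mul_sum]
      calc ∑ x ∈ Pᶜ, 2 * K * ((#{p ∈ A | p.1 = x} : ℕ) : ℝ) ≤ ∑ x ∈ Pᶜ, (N : ℝ) := by
            refine Finset.sum_le_sum fun x hx => ?_
            rw [mem_compl, hP, mem_filter, not_and] at hx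
            exact (not_le.1 (hx (mem_univ _))).le
        _ ≤ ∑ x : G, (N : ℝ) := Finset.sum_le_sum_of_subset_of_nonneg (subset_univ _)
              fun _ _ _ => hN0.le
        _ = (N : ℝ) ^ 2 := by
              rw [Finset.sum_const, nsmul_eq_mul, Finset.card_univ, ← hN, sq]
    rw [h4]
    rw [h3, h5] at h
    nlinarith
  -- the energy
  set s : Finset (G × H) := P.image fun x => (x, a x) with hs
  set t : Finset (G × H) := univ.image fun y => (y, b y) with ht
  set u : Finset (G × H) := univ.image fun z => (z, c z) with hu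
  have hcP : #P ≤ N := Finset.card_le_univ P
  have hcs : #s ≤ N := Finset.card_image_le.trans hcP
  have hct : #t ≤ N := Finset.card_image_le
  have hcu : #u ≤ N := Finset.card_image_le
  have hsol : #{p ∈ A | p.1 ∈ P} ≤ #{q ∈ s ×ˢ t | q.1 + q.2 ∈ u} := by
    refine Finset.card_le_card_of_injOn (fun p => ((p.1, a p.1), (p.2, b p.2))) ?_ ?_
    · intro p hp
      rw [mem_coe, mem_filter] at hp
      rw [mem_coe, mem_filter, mem_product]
      refine ⟨⟨mem_image_of_mem _ hp.2, mem_image_of_mem _ (mem_univ _)⟩, ?_⟩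
      simp only [Prod.mk_add_mk]
      rw [hA p hp.1]
      exact mem_image_of_mem (fun z => (z, c z)) (mem_univ _)
    · intro p _ q _ h3
      simp only [Prod.mk.injEq] at h3
      exact Prod.ext h3.1.1 h3.2.1
  have hK2 : 0 < 2 * K := by linarith
  have hen := (energy_of_solutions hK2 hNpos hcs hct hcu (hAP.trans
    (mul_le_mul_of_nonneg_left (by exact_mod_cast hsol) hK2.le))).1
  have hPne : P.Nonempty := by
    rw [Finset.nonempty_iff_ne_empty]
    intro h0
    rw [h0] at hAP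
    simp only [notMem_empty, filter_false, card_empty, Nat.cast_zero, mul_zero] at hAP
    have : (0 : ℝ) < (N : ℝ) ^ 2 := by positivity
    linarith
  obtain ⟨M, d, hMd⟩ := structure_hom h2 P hPne a (K := (2 * K) ^ 4) (by positivity) (by
    refine le_trans ?_ hen
    exact pow_le_pow_left₀ (by positivity) (by exact_mod_cast hcP) 3)
  refine ⟨M, d, ?_⟩
  -- `N ≤ 2 K |P|`
  have hNP : (N : ℝ) ≤ 2 * K * #P := by
    have h3 : #{p ∈ A | p.1 ∈ P} ≤ #P * N := by
      rw [hsumP]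
      calc ∑ x ∈ P, #{p ∈ A | p.1 = x} ≤ ∑ x ∈ P, N := by
            refine Finset.sum_le_sum fun x _ => ?_
            rw [hN, ← Finset.card_univ]
            refine Finset.card_le_card_of_injOn Prod.snd (fun _ _ => mem_coe.2 (mem_univ _)) ?_
            intro p hp q hq h4
            rw [mem_coe, mem_filter] at hp hq
            exact Prod.ext (hp.2.trans hq.2.symm) h4
        _ = #P * N := by rw [Finset.sum_const, smul_eq_mul]
    have h4 : ((#{p ∈ A | p.1 ∈ P} : ℕ) : ℝ) ≤ #P * N := by exact_mod_cast h3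
    have h5 : (N : ℝ) * N ≤ (2 * K * #P) * N := by
      calc (N : ℝ) * N = (N : ℝ) ^ 2 := by ring
        _ ≤ 2 * K * #{p ∈ A | p.1 ∈ P} := hAP
        _ ≤ 2 * K * (#P * N) := mul_le_mul_of_nonneg_left h4 hK2.le
        _ = _ := by ring
    exact le_of_mul_le_mul_right h5 hN0
  set X1 : Finset G := {x ∈ P | a x = M x + d} with hX1
  -- `N |X1| ≤ 2 K #{...}`
  have hX : (N : ℝ) * #X1 ≤ 2 * K * #{p ∈ A | a p.1 = M p.1 + d} := by
    have h3 : ∑ x ∈ X1, #{p ∈ A | p.1 = x} ≤ #{p ∈ A | a p.1 = M p.1 + d} := by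
      rw [← Finset.card_biUnion]
      · refine Finset.card_le_card fun p hp => ?_
        rw [mem_biUnion] at hp
        obtain ⟨x, hx, hpx⟩ := hp
        rw [mem_filter] at hpx hx ⊢
        refine ⟨hpx.1, ?_⟩
        rw [hpx.2]
        exact hx.2
      · intro x _ y _ hxy
        rw [Function.onFun, Finset.disjoint_left]
        intro p hp hq
        rw [mem_filter] at hp hq
        exact hxy (hp.2.symm.trans hq.2)
    have h4 : ∑ x ∈ X1, (N : ℝ) ≤ ∑ x ∈ X1, 2 * K * ((#{p ∈ A | p.1 = x} : ℕ) : ℝ) := by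
      refine Finset.sum_le_sum fun x hx => ?_
      rw [hX1, mem_filter, hP, mem_filter] at hx
      exact hx.1.2
    rw [Finset.sum_const, nsmul_eq_mul, ← Finset.mul_sum, ← Nat.cast_sum] at h4
    calc (N : ℝ) * #X1 = #X1 * N := mul_comm _ _
      _ ≤ _ := h4
      _ ≤ _ := mul_le_mul_of_nonneg_left (by exact_mod_cast h3) hK2.le
  have hQ : 0 ≤ 8 * (2 * K) ^ 4 * (2 ^ 22 * ((2 * K) ^ 4) ^ 10) ^ 267 := by positivity
  obtain ⟨Q, hQd⟩ : ∃ Q, Q = 8 * (2 * K) ^ 4 * (2 ^ 22 * ((2 * K) ^ 4) ^ 10) ^ 267 := ⟨_, rfl⟩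
  rw [← hQd] at hMd hQ
  have hfin : (N : ℝ) ^ 2 ≤ (2 * K) ^ 2 * Q * #{p ∈ A | a p.1 = M p.1 + d} := by
    calc (N : ℝ) ^ 2 = N * N := by ring
      _ ≤ N * (2 * K * #P) := mul_le_mul_of_nonneg_left hNP hN0.le
      _ ≤ N * (2 * K * (Q * #X1)) :=
          mul_le_mul_of_nonneg_left (mul_le_mul_of_nonneg_left hMd hK2.le) hN0.le
      _ = (2 * K * Q) * (N * #X1) := by ring
      _ ≤ (2 * K * Q) * (2 * K * #{p ∈ A | a p.1 = M p.1 + d}) :=
          mul_le_mul_of_nonneg_left hX (by positivity)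
      _ = _ := by ring
  refine hfin.trans (le_of_eq ?_)
  unfold Phi
  rw [← hQd]

/-- the number of values of a homomorphism times the size of a fibre -/
lemma image_mul_fiber_le {V : Type*} [AddCommGroup V] [Fintype V] [DecidableEq V] (T : V →+ H) (e : H) :
    #(univ.image T) * #{v : V | T v = e} ≤ Fintype.card V := by
  classical
  rw [← Finset.card_product, ← Finset.card_univ]
  have hch : ∀ v ∈ univ.image T, ∃ q : V, T q = v := fun v hv => by
    obtain ⟨q, _, hq⟩ := mem_image.1 hv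
    exact ⟨q, hq⟩
  refine Finset.card_le_card_of_injOn
    (fun p : H × V => if h : p.1 ∈ univ.image T then (hch p.1 h).choose + p.2 else 0)
    (fun _ _ => mem_coe.2 (mem_univ _)) ?_
  rintro ⟨h, v⟩ hp ⟨h', v'⟩ hp' heq
  rw [mem_coe, mem_product, mem_filter] at hp hp'
  simp only at heq hp hp'
  rw [dif_pos hp.1, dif_pos hp'.1] at heq
  have h1 := congrArg T heq
  rw [map_add, map_add, (hch h hp.1).choose_spec, (hch h' hp'.1).choose_spec, hp.2.2,
    hp'.2.2] at h1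
  have h3 : h = h' := add_right_cancel h1
  subst h3
  rw [add_left_cancel heq]

lemma arith3 {n k a t f q : ℝ} (hk : 0 < k) (h1 : n ≤ k * a) (haf : a ≤ f)
    (h2 : t * f ≤ n) (hf : 0 < f) (h3 : a ≤ t * q) (hq : 0 ≤ q) : n ≤ k ^ 2 * q := by
  have h4 : t ≤ k := by
    have h5 : t * f ≤ k * f := h2.trans (h1.trans (mul_le_mul_of_nonneg_left haf hk.le))
    exact le_of_mul_le_mul_right h5 hf
  calc n ≤ k * a := h1
    _ ≤ k * (t * q) := mul_le_mul_of_nonneg_left h3 hk.le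
    _ ≤ k * (k * q) := mul_le_mul_of_nonneg_left (mul_le_mul_of_nonneg_right h4 hq) hk.le
    _ = _ := by ring

/-- **Reduction.** A large set of solutions of an additive equation contains many points of a set
`{(x, y) : x ∈ X, y ∈ Y, x + y ∈ Z}` all of whose points are solutions. -/
theorem reduce (h2 : ∀ x : G, x + x = 0) (a b c : G → H) (A : Finset (G × G))
    (hA : ∀ p ∈ A, a p.1 + b p.2 = c (p.1 + p.2)) {K : ℝ} (hK : 1 ≤ K)
    (h : (Fintype.card G : ℝ) ^ 2 ≤ K * #A) :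
    ∃ X Y Z : Finset G, (∀ x ∈ X, ∀ y ∈ Y, x + y ∈ Z → a x + b y = c (x + y)) ∧
      (Fintype.card G : ℝ) ^ 2 ≤
        Phi (Phi (Phi K)) ^ 2 * #{p ∈ A | p.1 ∈ X ∧ p.2 ∈ Y ∧ p.1 + p.2 ∈ Z} := by
  classical
  have hK1 := one_le_Phi hK
  have hK2 := one_le_Phi hK1
  have hK3 := one_le_Phi hK2
  have hsub : ∀ x y : G, x - y = x + y := fun x y => by
    rw [sub_eq_add_neg, neg_eq_of_add_eq_zero_left (h2 y)]
  have hcancel : ∀ x y : G, x + y + y = x := fun x y => by rw [add_assoc, h2, add_zero]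
  -- first piece
  obtain ⟨M1, d1, h1⟩ := piece h2 a b c A hA (by linarith) h
  set A1 : Finset (G × G) := {p ∈ A | a p.1 = M1 p.1 + d1} with hA1
  -- second piece
  have hsw : #(A1.image fun p => (p.2, p.1)) = #A1 :=
    Finset.card_image_of_injective _ fun p q hpq => by
      rw [Prod.mk.injEq] at hpq
      exact Prod.ext hpq.2 hpq.1
  obtain ⟨M2, d2, h3⟩ := piece (K := Phi K) h2 b a c (A1.image fun p => (p.2, p.1)) (by
    intro q hq
    rw [mem_image] at hq
    obtain ⟨p, hp, rfl⟩ := hq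
    rw [hA1, mem_filter] at hp
    simp only
    rw [add_comm (b p.2), add_comm p.2, hA p hp.1]) (by linarith) (by rw [hsw]; exact h1)
  set A2 : Finset (G × G) := {p ∈ A1 | b p.2 = M2 p.2 + d2} with hA2
  have h4 : (Fintype.card G : ℝ) ^ 2 ≤ Phi (Phi K) * #A2 := by
    refine h3.trans (mul_le_mul_of_nonneg_left ?_ (by linarith))
    have : #{p ∈ A1.image fun p => (p.2, p.1) | b p.1 = M2 p.1 + d2} ≤ #A2 := by
      refine Finset.card_le_card_of_injOn (fun p => (p.2, p.1)) ?_ ?_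
      · intro q hq
        rw [mem_coe, mem_filter, mem_image] at hq
        obtain ⟨⟨p, hp, rfl⟩, hq2⟩ := hq
        rw [mem_coe, hA2, mem_filter]
        exact ⟨hp, hq2⟩
      · intro p _ q _ hpq
        simp only [Prod.mk.injEq] at hpq
        exact Prod.ext hpq.2 hpq.1
    exact_mod_cast this
  -- third piece
  have hsw3 : #(A2.image fun p => (p.1 + p.2, p.2)) = #A2 :=
    Finset.card_image_of_injective _ fun p q hpq => by
      rw [Prod.mk.injEq] at hpq
      have h5 := hpq.1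
      rw [hpq.2] at h5
      exact Prod.ext (add_right_cancel h5) hpq.2
  obtain ⟨M3, d3, h5⟩ := piece (K := Phi (Phi K)) h2 c (fun y => - b y) a (A2.image fun p => (p.1 + p.2, p.2)) (by
    intro q hq
    rw [mem_image] at hq
    obtain ⟨p, hp, rfl⟩ := hq
    rw [hA2, mem_filter, hA1, mem_filter] at hp
    simp only
    rw [hcancel, ← hA p hp.1.1, add_neg_cancel_right]) (by linarith) (by rw [hsw3]; exact h4)
  set A3 : Finset (G × G) := {p ∈ A2 | c (p.1 + p.2) = M3 (p.1 + p.2) + d3} with hA3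
  have h6 : (Fintype.card G : ℝ) ^ 2 ≤ Phi (Phi (Phi K)) * #A3 := by
    refine h5.trans (mul_le_mul_of_nonneg_left ?_ (by linarith))
    have : #{p ∈ A2.image fun p => (p.1 + p.2, p.2) | c p.1 = M3 p.1 + d3} ≤ #A3 := by
      refine Finset.card_le_card_of_injOn (fun p => (p.1 + p.2, p.2)) ?_ ?_
      · intro q hq
        rw [mem_coe, mem_filter, mem_image] at hq
        obtain ⟨⟨p, hp, rfl⟩, hq2⟩ := hq
        rw [mem_coe, hA3, mem_filter]
        simp only at hq2 ⊢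
        rw [hcancel]
        exact ⟨hp, hq2⟩
      · intro p _ q _ hpq
        simp only [Prod.mk.injEq] at hpq
        have h7 := hpq.1
        rw [hpq.2] at h7
        exact Prod.ext (add_right_cancel h7) hpq.2
    exact_mod_cast this
  have hmem : ∀ p ∈ A3, p ∈ A ∧ a p.1 = M1 p.1 + d1 ∧ b p.2 = M2 p.2 + d2 ∧
      c (p.1 + p.2) = M3 (p.1 + p.2) + d3 := by
    intro p hp
    rw [hA3, mem_filter, hA2, mem_filter, hA1, mem_filter] at hp
    exact ⟨hp.1.1.1, hp.1.1.2, hp.1.2, hp.2⟩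
  -- the differences of the homomorphisms
  set P : G →+ H := M1 - M3 with hP
  set Q : G →+ H := M2 - M3 with hQ
  set T : G × G →+ H := P.coprod Q with hT
  set e : H := d3 - d1 - d2 with he
  have hTe : ∀ p ∈ A3, T p = e := by
    intro p hp
    obtain ⟨hp0, hp1, hp2, hp3⟩ := hmem p hp
    have h7 := hA p hp0
    rw [hp1, hp2, hp3, map_add] at h7
    rw [hT, AddMonoidHom.coprod_apply, hP, hQ, AddMonoidHom.sub_apply, AddMonoidHom.sub_apply, he]
    have h8 : M1 p.1 - M3 p.1 + (M2 p.2 - M3 p.2) - (d3 - d1 - d2) =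
        (M1 p.1 + d1 + (M2 p.2 + d2)) - (M3 p.1 + M3 p.2 + d3) := by abel
    rw [← sub_eq_zero, h8, h7, sub_self]
  have hNpos : (0 : ℝ) < (Fintype.card G : ℝ) ^ 2 := by
    have : (0 : ℝ) < Fintype.card G := by exact_mod_cast Fintype.card_pos
    positivity
  have hA3ne : A3.Nonempty := by
    rw [Finset.nonempty_iff_ne_empty]
    intro h0
    rw [h0, card_empty, Nat.cast_zero, mul_zero] at h6
    linarith
  obtain ⟨v, hv, hfib⟩ := exists_fiber A3 (univ.image P) (fun p => P p.1) hA3ne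
    fun p _ => mem_image_of_mem _ (mem_univ _)
  have hPT : #(univ.image P) ≤ #(univ.image T) := by
    refine Finset.card_le_card fun w hw => ?_
    obtain ⟨x, _, rfl⟩ := mem_image.1 hw
    refine mem_image.2 ⟨(x, 0), mem_univ _, ?_⟩
    rw [hT, AddMonoidHom.coprod_apply]
    simp
  have hA3f : #A3 ≤ #{p : G × G | T p = e} :=
    Finset.card_le_card fun p hp => mem_filter.2 ⟨mem_univ _, hTe p hp⟩
  have hTf := image_mul_fiber_le T e
  rw [Fintype.card_prod, ← sq] at hTf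
  refine ⟨univ.filter fun x => a x = M1 x + d1 ∧ P x = v,
    univ.filter fun y => b y = M2 y + d2 ∧ Q y = e - v,
    univ.filter fun z => c z = M3 z + d3, ?_, ?_⟩
  · intro x hx y hy hz
    rw [mem_filter] at hx hy hz
    rw [hx.2.1, hy.2.1, hz.2, map_add]
    have h7 : M1 x = v + M3 x := by
      have := hx.2.2
      rw [hP, AddMonoidHom.sub_apply] at this
      rw [← this, sub_add_cancel]
    have h8 : M2 y = e - v + M3 y := by
      have := hy.2.2
      rw [hQ, AddMonoidHom.sub_apply] at this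
      rw [← this, sub_add_cancel]
    rw [h7, h8, he]
    abel
  · have hsub2 : #{p ∈ A3 | P p.1 = v} ≤ #{p ∈ A | p.1 ∈ ({x | a x = M1 x + d1 ∧ P x = v} : Finset G) ∧
        p.2 ∈ ({y | b y = M2 y + d2 ∧ Q y = e - v} : Finset G) ∧
        p.1 + p.2 ∈ ({z | c z = M3 z + d3} : Finset G)} := by
      refine Finset.card_le_card fun p hp => ?_
      rw [mem_filter] at hp
      obtain ⟨hp0, hp1, hp2, hp3⟩ := hmem p hp.1
      have h7 := hTe p hp.1
      rw [hT, AddMonoidHom.coprod_apply, hp.2] at h7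
      simp only [mem_filter, mem_univ, true_and]
      refine ⟨hp0, ⟨hp1, hp.2⟩, ⟨hp2, ?_⟩, hp3⟩
      rw [← h7, add_sub_cancel_left]
    have hfib' : ((#A3 : ℕ) : ℝ) ≤ ((#(univ.image T) : ℕ) : ℝ) *
        ((#{p ∈ A | p.1 ∈ ({x | a x = M1 x + d1 ∧ P x = v} : Finset G) ∧
        p.2 ∈ ({y | b y = M2 y + d2 ∧ Q y = e - v} : Finset G) ∧
        p.1 + p.2 ∈ ({z | c z = M3 z + d3} : Finset G)} : ℕ) : ℝ) := by
      rw [← Nat.cast_mul]
      exact Nat.cast_le.2 (hfib.trans (Nat.mul_le_mul hPT hsub2))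
    have hTf' : ((#(univ.image T) : ℕ) : ℝ) * ((#{p : G × G | T p = e} : ℕ) : ℝ) ≤
        (Fintype.card G : ℝ) ^ 2 := by
      rw [← Nat.cast_mul, ← Nat.cast_pow]
      exact Nat.cast_le.2 hTf
    have hfpos : (0 : ℝ) < ((#{p : G × G | T p = e} : ℕ) : ℝ) := by
      have : 0 < #{p : G × G | T p = e} := lt_of_lt_of_le hA3ne.card_pos hA3f
      exact_mod_cast this
    exact arith3 (by linarith) h6 (Nat.cast_le.2 hA3f) hTf' hfpos hfib' (Nat.cast_nonneg _)

end

end Pool.Agent.P8H31.AE
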