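import Pool.Agent.P8H31.AE.Final

set_option autoImplicit false
set_option maxHeartbeats 1000000

/-! # Comparisons of sums are unions of few additive equations -/

namespace Pool.Agent.P8H31.AE

open Finset Pool.Agent.Results.MP_db4732_co.ComparisonTrees

/-! ### Arithmetic -/

lemma half (a i : ℕ) : a / 2 ^ (i + 1) = a / 2 ^ i / 2 := by
  rw [pow_succ, Nat.div_div_eq_div_mul]

lemma le_iff {m a b c : ℕ} (ha : a < 2 ^ m) (hb : b < 2 ^ m) (hc : c < 2 ^ m) :
    a + b ≤ c ↔ (∃ s < 2, a + b + s = c) ∨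
      ∃ i < m, ∃ s < 2, a / 2 ^ i + b / 2 ^ i + (s + 2) = c / 2 ^ i := by
  constructor
  · intro h
    by_cases h0 : a + b + 2 ≤ c
    · right
      have hex : ∃ i, ¬ (a / 2 ^ i + b / 2 ^ i + 2 ≤ c / 2 ^ i) := ⟨m, by
        rw [Nat.div_eq_of_lt ha, Nat.div_eq_of_lt hb, Nat.div_eq_of_lt hc]
        omega⟩
      classical
      set j := Nat.find hex with hj
      have h1 := Nat.find_spec hex
      have h2 : ∀ k < j, a / 2 ^ k + b / 2 ^ k + 2 ≤ c / 2 ^ k := fun k hk => by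
        by_contra hcon
        exact Nat.find_min hex hk hcon
      have hjm : j ≤ m := by
        apply Nat.find_min'
        rw [Nat.div_eq_of_lt ha, Nat.div_eq_of_lt hb, Nat.div_eq_of_lt hc]
        omega
      rw [← hj] at h1
      obtain ⟨k, hk⟩ : ∃ k, j = k + 1 := by
        rcases j with _ | k
        · exfalso
          apply h1
          simpa using h0
        · exact ⟨k, rfl⟩
      have h3 := h2 k (by omega)
      rw [hk, half, half, half] at h1
      refine ⟨k, by omega, c / 2 ^ k - (a / 2 ^ k + b / 2 ^ k + 2), ?_, ?_⟩ <;> omega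
    · left
      exact ⟨c - (a + b), by omega, by omega⟩
  · rintro (⟨s, _, h⟩ | ⟨i, _, s, _, h⟩)
    · omega
    · have key : ∀ k, a / 2 ^ k + b / 2 ^ k + 2 ≤ c / 2 ^ k → a + b + 2 ≤ c := by
        intro k
        induction k with
        | zero => intro h; simpa using h
        | succ k ih =>
          intro h
          rw [half, half, half] at h
          exact ih (by omega)
      have := key i (by omega)
      omega

lemma not_le_iff' {m a b c : ℕ} (ha : a < 2 ^ m) (hb : b < 2 ^ m) (hc : c < 2 ^ m) :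
    ¬ a + b ≤ c ↔ ∃ i < m, ∃ s < 2, a / 2 ^ i + b / 2 ^ i = c / 2 ^ i + (s + 1) := by
  constructor
  · intro h
    have hex : ∃ i, ¬ (c / 2 ^ i < a / 2 ^ i + b / 2 ^ i) := ⟨m, by
      rw [Nat.div_eq_of_lt ha, Nat.div_eq_of_lt hb, Nat.div_eq_of_lt hc]
      omega⟩
    classical
    set j := Nat.find hex with hj
    have h1 := Nat.find_spec hex
    have h2 : ∀ k < j, c / 2 ^ k < a / 2 ^ k + b / 2 ^ k := fun k hk => by
      by_contra hcon
      exact Nat.find_min hex hk hcon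
    have hjm : j ≤ m := by
      apply Nat.find_min'
      rw [Nat.div_eq_of_lt ha, Nat.div_eq_of_lt hb, Nat.div_eq_of_lt hc]
      omega
    rw [← hj] at h1
    obtain ⟨k, hk⟩ : ∃ k, j = k + 1 := by
      rcases j with _ | k
      · exfalso
        apply h1
        simpa using h
      · exact ⟨k, rfl⟩
    have h3 := h2 k (by omega)
    rw [hk, half, half, half] at h1
    refine ⟨k, by omega, a / 2 ^ k + b / 2 ^ k - (c / 2 ^ k + 1), ?_, ?_⟩ <;> omega
  · rintro ⟨i, _, s, _, h⟩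
    have key : ∀ k, c / 2 ^ k < a / 2 ^ k + b / 2 ^ k → c < a + b := by
      intro k
      induction k with
      | zero => intro h; simpa using h
      | succ k ih =>
        intro h
        rw [half, half, half] at h
        exact ih (by omega)
    have := key i (by omega)
    omega

/-! ### Unions of additive equations -/

lemma IsAdditive.and {n : ℕ} {P Q : V n → V n → Prop} (hP : IsAdditive P) (hQ : IsAdditive Q) :
    IsAdditive fun x y => P x y ∧ Q x y := by
  obtain ⟨H, hH, a, b, c, h⟩ := hP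
  obtain ⟨H', hH', a', b', c', h'⟩ := hQ
  refine ⟨H × H', inferInstance, fun x => (a x, a' x), fun x => (b x, b' x), fun x => (c x, c' x),
    fun x y => ?_⟩
  beta_reduce
  rw [h, h', Prod.mk_add_mk, Prod.mk.injEq]

lemma isAdditive_nat {n : ℕ} (a b c : V n → ℕ) (s t : ℕ) :
    IsAdditive fun x y => a x + b y + s = c (x + y) + t := by
  refine ⟨ℤ, inferInstance, fun x => (a x : ℤ) + s, fun y => b y, fun z => (c z : ℤ) + t,
    fun x y => ?_⟩
  constructor
  · intro h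
    have : ((a x + b y + s : ℕ) : ℤ) = ((c (x + y) + t : ℕ) : ℤ) := by rw [h]
    push_cast at this
    linarith
  · intro h
    have : ((a x + b y + s : ℕ) : ℤ) = ((c (x + y) + t : ℕ) : ℤ) := by
      push_cast
      linarith
    exact_mod_cast this

/-- `Q` is the union of at most `R` sets of solutions of additive equations -/
def Un {n : ℕ} (R : ℕ) (Q : V n → V n → Prop) : Prop :=
  ∃ (ι : Type) (_ : Fintype ι) (q : ι → V n → V n → Prop), Fintype.card ι ≤ R ∧
    (∀ j, IsAdditive (q j)) ∧ ∀ x y, Q x y ↔ ∃ j, q j x y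

/-- a comparison of sums of numbers with few bits -/
def IsSumComparison {n : ℕ} (M : ℕ) (Q : V n → V n → Prop) : Prop :=
  ∃ a b c : V n → ℤ, (∀ x, |a x| ≤ 2 ^ M ∧ |b x| ≤ 2 ^ M ∧ |c x| ≤ 2 ^ M) ∧
    ∀ x y, Q x y ↔ a x + b y ≤ c (x + y)

lemma sumComparison_nat {n M : ℕ} {Q : V n → V n → Prop} (h : IsSumComparison M Q) :
    ∃ a b c : V n → ℕ, (∀ x, a x < 2 ^ (M + 2) ∧ b x < 2 ^ (M + 2) ∧ c x < 2 ^ (M + 2)) ∧
      ∀ x y, Q x y ↔ a x + b y ≤ c (x + y) := by
  obtain ⟨a, b, c, h1, h2⟩ := h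
  have hp : (0 : ℤ) < 2 ^ M := by positivity
  have ha : ∀ x, 0 ≤ a x + 2 ^ M ∧ 0 ≤ b x + 2 ^ M ∧ 0 ≤ c x + 2 * 2 ^ M := fun x => by
    obtain ⟨p1, p2, p3⟩ := h1 x
    rw [abs_le] at p1 p2 p3
    refine ⟨?_, ?_, ?_⟩ <;> linarith
  have hpow : (2 : ℤ) ^ (M + 2) = 4 * 2 ^ M := by ring
  refine ⟨fun x => (a x + 2 ^ M).toNat, fun x => (b x + 2 ^ M).toNat,
    fun x => (c x + 2 * 2 ^ M).toNat, fun x => ?_, fun x y => ?_⟩
  · obtain ⟨p1, p2, p3⟩ := h1 x
    rw [abs_le] at p1 p2 p3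
    refine ⟨?_, ?_, ?_⟩
    · rw [Int.toNat_lt (ha x).1]
      push_cast
      linarith
    · rw [Int.toNat_lt (ha x).2.1]
      push_cast
      linarith
    · rw [Int.toNat_lt (ha x).2.2]
      push_cast
      linarith
  · rw [h2]
    beta_reduce
    have e1 := Int.toNat_of_nonneg (ha x).1
    have e2 := Int.toNat_of_nonneg (ha y).2.1
    have e3 := Int.toNat_of_nonneg (ha (x + y)).2.2
    constructor
    · intro h
      have : (((a x + 2 ^ M).toNat + (b y + 2 ^ M).toNat : ℕ) : ℤ) ≤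
          ((c (x + y) + 2 * 2 ^ M).toNat : ℕ) := by
        push_cast [e1, e2, e3]
        linarith
      exact_mod_cast this
    · intro h
      have : (((a x + 2 ^ M).toNat + (b y + 2 ^ M).toNat : ℕ) : ℤ) ≤
          ((c (x + y) + 2 * 2 ^ M).toNat : ℕ) := by exact_mod_cast h
      push_cast [e1, e2, e3] at this
      linarith

lemma un_le {n m : ℕ} (a b c : V n → ℕ) (h : ∀ x, a x < 2 ^ m ∧ b x < 2 ^ m ∧ c x < 2 ^ m) :
    Un (2 * m + 2) (fun x y => a x + b y ≤ c (x + y)) := by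
  refine ⟨Fin 2 ⊕ Fin m × Fin 2, inferInstance, Sum.elim
    (fun s x y => a x + b y + (s : ℕ) = c (x + y) + 0)
    (fun p x y => a x / 2 ^ (p.1 : ℕ) + b y / 2 ^ (p.1 : ℕ) + ((p.2 : ℕ) + 2) =
      c (x + y) / 2 ^ (p.1 : ℕ) + 0), ?_, ?_, ?_⟩
  · simp only [Fintype.card_sum, Fintype.card_prod, Fintype.card_fin]
    omega
  · rintro (s | p)
    · exact isAdditive_nat a b c s 0
    · exact isAdditive_nat (fun x => a x / 2 ^ (p.1 : ℕ)) (fun x => b x / 2 ^ (p.1 : ℕ))
        (fun x => c x / 2 ^ (p.1 : ℕ)) ((p.2 : ℕ) + 2) 0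
  · intro x y
    beta_reduce
    rw [le_iff (h x).1 (h y).2.1 (h (x + y)).2.2]
    constructor
    · rintro (⟨s, hs, he⟩ | ⟨i, hi, s, hs, he⟩)
      · exact ⟨Sum.inl ⟨s, hs⟩, he⟩
      · exact ⟨Sum.inr (⟨i, hi⟩, ⟨s, hs⟩), he⟩
    · rintro ⟨s | p, he⟩
      · exact Or.inl ⟨s, s.2, he⟩
      · exact Or.inr ⟨p.1, p.1.2, p.2, p.2.2, he⟩

lemma un_not_le {n m : ℕ} (a b c : V n → ℕ) (h : ∀ x, a x < 2 ^ m ∧ b x < 2 ^ m ∧ c x < 2 ^ m) :
    Un (2 * m + 2) (fun x y => ¬ a x + b y ≤ c (x + y)) := by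
  refine ⟨Fin m × Fin 2, inferInstance,
    (fun p x y => a x / 2 ^ (p.1 : ℕ) + b y / 2 ^ (p.1 : ℕ) + 0 =
      c (x + y) / 2 ^ (p.1 : ℕ) + ((p.2 : ℕ) + 1)), ?_, ?_, ?_⟩
  · simp only [Fintype.card_prod, Fintype.card_fin]
    omega
  · intro p
    exact isAdditive_nat (fun x => a x / 2 ^ (p.1 : ℕ)) (fun x => b x / 2 ^ (p.1 : ℕ))
        (fun x => c x / 2 ^ (p.1 : ℕ)) 0 ((p.2 : ℕ) + 1)
  · intro x y
    beta_reduce
    rw [not_le_iff' (h x).1 (h y).2.1 (h (x + y)).2.2]
    constructor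
    · rintro ⟨i, hi, s, hs, he⟩
      exact ⟨(⟨i, hi⟩, ⟨s, hs⟩), he⟩
    · rintro ⟨p, he⟩
      exact ⟨p.1, p.1.2, p.2, p.2.2, he⟩

/-! ### Trees -/

/-- decision trees -/
abbrev CT (n : ℕ) := Pool.Agent.Results.MP_db4732_co.ComparisonTrees.Tree n

/-- all queries of the tree satisfy `P` -/
def Queries {n : ℕ} (P : (V n → V n → Prop) → Prop) : CT n → Prop
  | .leaf _ => True
  | .node C s t => P C ∧ Queries P s ∧ Queries P t

/-- `Q` is a union of at most `R` sets, each decided by a comparison tree and an additive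
equation -/
def Pieces {n : ℕ} (k R : ℕ) (Q : V n → V n → Prop) : Prop :=
  ∃ (ι : Type) (_ : Fintype ι) (T : ι → CT n) (q : ι → V n → V n → Prop), Fintype.card ι ≤ R ∧
    (∀ j, (T j).Comparisons) ∧ (∀ j, (T j).depth ≤ k) ∧ (∀ j, IsAdditive (q j)) ∧
    ∀ x y, Q x y ↔ ∃ j, (T j).Accepts x y ∧ q j x y

lemma Pieces.or {n k R R' : ℕ} {P Q : V n → V n → Prop} (hP : Pieces k R P) (hQ : Pieces k R' Q) :
    Pieces k (R + R') fun x y => P x y ∨ Q x y := by
  obtain ⟨ι, _, T, q, h1, h2, h3, h4, h5⟩ := hP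
  obtain ⟨ι', _, T', q', h1', h2', h3', h4', h5'⟩ := hQ
  refine ⟨ι ⊕ ι', inferInstance, Sum.elim T T', Sum.elim q q', ?_, ?_, ?_, ?_, ?_⟩
  · rw [Fintype.card_sum]
    exact Nat.add_le_add h1 h1'
  · rintro (j | j)
    · exact h2 j
    · exact h2' j
  · rintro (j | j)
    · exact h3 j
    · exact h3' j
  · rintro (j | j)
    · exact h4 j
    · exact h4' j
  · intro x y
    beta_reduce
    rw [h5, h5']
    constructor
    · rintro (⟨j, hj⟩ | ⟨j, hj⟩)
      · exact ⟨Sum.inl j, hj⟩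
      · exact ⟨Sum.inr j, hj⟩
    · rintro ⟨j | j, hj⟩
      · exact Or.inl ⟨j, hj⟩
      · exact Or.inr ⟨j, hj⟩

lemma Pieces.mono {n k k' R R' : ℕ} {P : V n → V n → Prop} (hP : Pieces k R P) (hk : k ≤ k')
    (hR : R ≤ R') : Pieces k' R' P := by
  obtain ⟨ι, _, T, q, h1, h2, h3, h4, h5⟩ := hP
  exact ⟨ι, inferInstance, T, q, h1.trans hR, h2, fun j => (h3 j).trans hk, h4, h5⟩

lemma Pieces.and_un {n k R R' : ℕ} {P Q : V n → V n → Prop} (hP : Pieces k R P) (hQ : Un R' Q) :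
    Pieces k (R' * R) fun x y => Q x y ∧ P x y := by
  obtain ⟨ι, _, T, q, h1, h2, h3, h4, h5⟩ := hP
  obtain ⟨ι', _, q', h1', h4', h5'⟩ := hQ
  refine ⟨ι' × ι, inferInstance, fun p => T p.2, fun p x y => q' p.1 x y ∧ q p.2 x y, ?_,
    fun p => h2 p.2, fun p => h3 p.2, fun p => (h4' p.1).and (h4 p.2), ?_⟩
  · rw [Fintype.card_prod]
    exact Nat.mul_le_mul h1' h1
  · intro x y
    beta_reduce
    rw [h5, h5']
    constructor
    · rintro ⟨⟨j, hj⟩, i, hi1, hi2⟩
      exact ⟨(j, i), hi1, hj, hi2⟩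
    · rintro ⟨p, hp1, hp2, hp3⟩
      exact ⟨⟨p.1, hp2⟩, p.2, hp1, hp3⟩

lemma Pieces.congr {n k R : ℕ} {P Q : V n → V n → Prop} (hP : Pieces k R P)
    (h : ∀ x y, Q x y ↔ P x y) : Pieces k R Q := by
  obtain ⟨ι, _, T, q, h1, h2, h3, h4, h5⟩ := hP
  exact ⟨ι, inferInstance, T, q, h1, h2, h3, h4, fun x y => (h x y).trans (h5 x y)⟩

/-- one more comparison -/
lemma Pieces.node {n k R : ℕ} {P Q : V n → V n → Prop} {C : V n → V n → Prop}
    (hC : IsComparison C) (hP : Pieces k R P) (hQ : Pieces k R Q) :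
    Pieces (k + 1) (R + R) fun x y => (C x y ∧ P x y) ∨ (¬ C x y ∧ Q x y) := by
  refine Pieces.or ?_ ?_
  · obtain ⟨ι, _, T, q, h1, h2, h3, h4, h5⟩ := hP
    refine ⟨ι, inferInstance, fun j => (.node C (T j) (.leaf false) : CT n), q, h1,
      fun j => ⟨hC, h2 j, trivial⟩, fun j => ?_, h4, fun x y => ?_⟩
    · simp only [Pool.Agent.Results.MP_db4732_co.ComparisonTrees.Tree.depth]
      have := h3 j
      omega
    · beta_reduce
      rw [h5]
      simp only [Pool.Agent.Results.MP_db4732_co.ComparisonTrees.Tree.Accepts]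
      constructor
      · rintro ⟨h6, j, h7, h8⟩
        exact ⟨j, Or.inl ⟨h6, h7⟩, h8⟩
      · rintro ⟨j, h6 | h6, h8⟩
        · exact ⟨h6.1, j, h6.2, h8⟩
        · exact absurd h6.2 (by simp)
  · obtain ⟨ι, _, T, q, h1, h2, h3, h4, h5⟩ := hQ
    refine ⟨ι, inferInstance, fun j => (.node C (.leaf false) (T j) : CT n), q, h1,
      fun j => ⟨hC, trivial, h2 j⟩, fun j => ?_, h4, fun x y => ?_⟩
    · simp only [Pool.Agent.Results.MP_db4732_co.ComparisonTrees.Tree.depth]
      have := h3 j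
      omega
    · beta_reduce
      rw [h5]
      simp only [Pool.Agent.Results.MP_db4732_co.ComparisonTrees.Tree.Accepts]
      constructor
      · rintro ⟨h6, j, h7, h8⟩
        exact ⟨j, Or.inr ⟨h6, h7⟩, h8⟩
      · rintro ⟨j, h6 | h6, h8⟩
        · exact absurd h6.2 (by simp)
        · exact ⟨h6.1, j, h6.2, h8⟩

/-- trees with comparisons and comparisons of sums -/
lemma pieces_tree {n M : ℕ} (T : CT n)
    (h : Queries (fun C => IsComparison C ∨ IsSumComparison M C) T) :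
    Pieces T.depth ((4 * M + 12) ^ T.depth) fun x y => T.Accepts x y := by
  induction T with
  | leaf b =>
    refine ⟨Unit, inferInstance, fun _ => (.leaf b : CT n), fun _ _ _ => True, by simp [Pool.Agent.Results.MP_db4732_co.ComparisonTrees.Tree.depth],
      fun _ => trivial, fun _ => le_rfl, fun _ => ⟨ℤ, inferInstance, fun _ => 0, fun _ => 0,
        fun _ => 0, fun x y => by simp⟩, fun x y => by simp⟩
  | node C s t ihs iht =>
    obtain ⟨hC, hs, ht⟩ := h
    have hs' := ihs hs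
    have ht' := iht ht
    set k := max s.depth t.depth with hk
    have hpow : ∀ j, j ≤ k → (4 * M + 12) ^ j ≤ (4 * M + 12) ^ k := fun j hj =>
      Nat.pow_le_pow_right (by omega) hj
    have hs2 := hs'.mono (le_max_left _ t.depth) (hpow _ (le_max_left _ _))
    have ht2 := ht'.mono (le_max_right s.depth _) (hpow _ (le_max_right _ _))
    have hdepth : (.node C s t : CT n).depth = k + 1 := rfl
    rw [hdepth, pow_succ]
    rcases hC with hC | hC
    · refine (Pieces.node hC hs2 ht2).mono le_rfl ?_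
      calc (4 * M + 12) ^ k + (4 * M + 12) ^ k = (4 * M + 12) ^ k * 2 := by ring
        _ ≤ (4 * M + 12) ^ k * (4 * M + 12) := Nat.mul_le_mul_left _ (by omega)
    · obtain ⟨a, b, c, h1, h2⟩ := sumComparison_nat hC
      have hy := hs2.and_un (un_le a b c h1)
      have hn := ht2.and_un (un_not_le a b c h1)
      refine ((hy.or hn).mono (Nat.le_succ k) (le_of_eq ?_)).congr ?_
      · ring
      · intro x y
        simp only [Pool.Agent.Results.MP_db4732_co.ComparisonTrees.Tree.Accepts, h2]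

end Pool.Agent.P8H31.AE
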